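import Mathlib

/-!
Graded matrix groups attached to a pair of weights: block triangular matrices, the block diagonal
part, the unipotent groups with prescribed slopes, the homogeneous gauge and the dilations.
-/

open scoped Matrix Matrix.Norms.Operator
open Set

noncomputable section

namespace Pool.Agent.P.MP_d483fb_an.Z

instance instMeasMatrix {ι κ : Type} : MeasurableSpace (Matrix ι κ ℝ) :=
  inferInstanceAs (MeasurableSpace (ι → κ → ℝ))

instance instBorelMatrix {ι κ : Type} [Finite ι] [Finite κ] : BorelSpace (Matrix ι κ ℝ) :=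
  inferInstanceAs (BorelSpace (ι → κ → ℝ))

instance instPolishMatrix {ι κ : Type} [Finite ι] [Finite κ] : PolishSpace (Matrix ι κ ℝ) :=
  inferInstanceAs (PolishSpace (ι → κ → ℝ))

/-- Two weights on an index set; the second one is a function of the first one. -/
structure Wt (ι : Type) where
  wa : ι → ℝ
  wb : ι → ℝ
  hab : ∀ i j, wa i = wa j → wb i = wb j

namespace Wt

variable {ι : Type} [Fintype ι] [DecidableEq ι] (w : Wt ι)

/-- The slope of the entry `(i, j)`. -/
def slope (i j : ι) : ℝ := (w.wb i - w.wb j) / (w.wa i - w.wa j)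

/-- Block triangular matrices. -/
def Tri (T : Matrix ι ι ℝ) : Prop := ∀ i j, T i j ≠ 0 → w.wa j ≤ w.wa i

/-- Block diagonal matrices. -/
def Lev (T : Matrix ι ι ℝ) : Prop := ∀ i j, T i j ≠ 0 → w.wa i = w.wa j

/-- Strictly block triangular matrices whose nonzero entries have slope in `J`. -/
def Str (J : Set ℝ) (m : Matrix ι ι ℝ) : Prop :=
  ∀ i j, m i j ≠ 0 → w.wa j < w.wa i ∧ w.slope i j ∈ J

/-- Unipotent matrices whose off diagonal entries have slope in `J`. -/
def Nil (J : Set ℝ) (n : Matrix ι ι ℝ) : Prop := w.Str J (n - 1)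

/-- The block diagonal part. -/
def lev (T : Matrix ι ι ℝ) : Matrix ι ι ℝ :=
  Matrix.of fun i j => if w.wa i = w.wa j then T i j else 0

/-- The unipotent part: `T = nil T * lev T`. -/
def nil (T : Matrix ι ι ℝ) : Matrix ι ι ℝ := T * (w.lev T)⁻¹

/-- The homogeneous gauge. -/
def N (n : Matrix ι ι ℝ) : ℝ :=
  ⨆ p : ι × ι, if w.wa p.2 < w.wa p.1 then |n p.1 p.2| ^ (w.wa p.1 - w.wa p.2)⁻¹ else 0

/-- The dilations. -/
def dil (s t : ℝ) : Matrix ι ι ℝ := Matrix.diagonal fun i => Real.exp (s * w.wa i + t * w.wb i)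

/-- Keep the entries of slope `χ` (and the entries which are not strictly below the blocks). -/
def pr (χ : ℝ) (n : Matrix ι ι ℝ) : Matrix ι ι ℝ :=
  Matrix.of fun i j => if w.wa j < w.wa i ∧ w.slope i j ≠ χ then 0 else n i j

/-- The complementary factor: `n = al χ n * pr χ n`. -/
def al (χ : ℝ) (n : Matrix ι ι ℝ) : Matrix ι ι ℝ := n * (w.pr χ n)⁻¹

/-- `χ` is an extreme point of `J`. -/
def Extreme (J : Set ℝ) (χ : ℝ) : Prop := (∀ σ ∈ J, χ ≤ σ) ∨ (∀ σ ∈ J, σ ≤ χ)

/-- Entrywise homogeneous bound at scale `r` with constant `A`, for block triangular matrices. -/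
def Bd (r A : ℝ) (T : Matrix ι ι ℝ) : Prop :=
  w.Tri T ∧ ∀ i j, w.wa j ≤ w.wa i → |T i j| ≤ A * r ^ (w.wa i - w.wa j)

end Wt

end Pool.Agent.P.MP_d483fb_an.Z
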