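import Pool.Agent.P.MP_d483fb_an.Z.Grp.Basic

/-!
The homogeneous gauge: quasi-triangle inequality, conjugation, dilations, Hoelder continuity,
compactness of balls and measurability.
-/

open scoped Matrix Matrix.Norms.Operator Topology
open Set

noncomputable section

namespace Pool.Agent.P.MP_d483fb_an.Z

section Norm

variable {ι κ : Type} [Fintype ι] [Fintype κ]

theorem abs_entry_le (A : Matrix ι κ ℝ) (i : ι) (j : κ) : |A i j| ≤ ‖A‖ := by
  have h1 : ‖A i j‖₊ ≤ ∑ j, ‖A i j‖₊ :=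
    Finset.single_le_sum (f := fun j => ‖A i j‖₊) (fun _ _ => zero_le) (Finset.mem_univ j)
  have h2 : ∑ j, ‖A i j‖₊ ≤ ‖A‖₊ := by
    rw [Matrix.linfty_opNNNorm_def]
    exact Finset.le_sup (f := fun i => ∑ j, ‖A i j‖₊) (Finset.mem_univ i)
  exact_mod_cast h1.trans h2

theorem norm_le_of_entry {A : Matrix ι κ ℝ} {c : ℝ} (hc : 0 ≤ c) (h : ∀ i j, |A i j| ≤ c) :
    ‖A‖ ≤ Fintype.card κ * c := by
  lift c to NNReal using hc
  have : ‖A‖₊ ≤ Fintype.card κ * c := by
    rw [Matrix.linfty_opNNNorm_def]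
    refine Finset.sup_le fun i _ => ?_
    have := Finset.sum_le_card_nsmul Finset.univ (fun j => ‖A i j‖₊) c
      fun j _ => by exact_mod_cast h i j
    simpa using this
  exact_mod_cast this

theorem rpow_le_mul_rpow {x M a b p : ℝ} (hx : 0 ≤ x) (hxM : x ≤ M) (hM : 1 ≤ M) (ha : 0 ≤ a)
    (hap : a ≤ p) (hb : p - a ≤ b) : x ^ p ≤ M ^ b * x ^ a := by
  have e : x ^ p = x ^ (p - a) * x ^ a := by
    rw [← Real.rpow_add_of_nonneg hx (sub_nonneg.2 hap) ha, sub_add_cancel]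
  rw [e]
  refine mul_le_mul_of_nonneg_right ?_ (Real.rpow_nonneg hx _)
  exact (Real.rpow_le_rpow hx hxM (sub_nonneg.2 hap)).trans
    (Real.rpow_le_rpow_of_exponent_le hM hb)

theorem rpow_holder {x y M a g p : ℝ} (hx : 0 ≤ x) (hxM : x ≤ M) (hy : 0 ≤ y) (hyM : y ≤ M)
    (hM : 1 ≤ M) (ha : 0 ≤ a) (ha1 : a ≤ 1) (hap : a ≤ p) (hg : 1 ≤ g) (hpg : p ≤ g) :
    x ^ p ≤ y ^ p + g * M ^ (g + 1) * |x - y| ^ a := by
  have hd : |x - y| ≤ M := abs_le.2 ⟨by linarith, by linarith⟩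
  have hd0 := abs_nonneg (x - y)
  have hM0 : 0 ≤ M := by linarith
  have hda := Real.rpow_nonneg hd0 a
  rcases le_total p 1 with hp | hp
  · have h1 : x ^ p ≤ (y + |x - y|) ^ p :=
      Real.rpow_le_rpow hx (by linarith [le_abs_self (x - y)]) (ha.trans hap)
    have h2 := Real.rpow_add_le_add_rpow hy hd0 (ha.trans hap) hp
    have h3 := rpow_le_mul_rpow (b := g + 1) hd0 hd hM ha hap (by linarith)
    have h4 : 0 ≤ M ^ (g + 1) * |x - y| ^ a := mul_nonneg (Real.rpow_nonneg hM0 _) hda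
    nlinarith
  · have h1 := (convex_Icc 0 M).norm_image_sub_le_of_norm_hasDerivWithin_le
      (f := fun x : ℝ => x ^ p) (f' := fun x => p * x ^ (p - 1)) (C := g * M ^ g)
      (fun z _ => (Real.hasDerivAt_rpow_const (Or.inr hp)).hasDerivWithinAt)
      (fun z hz => by
        rw [Real.norm_eq_abs, abs_of_nonneg (mul_nonneg (by linarith) (Real.rpow_nonneg hz.1 _))]
        refine mul_le_mul hpg ?_ (Real.rpow_nonneg hz.1 _) (by linarith)
        exact (Real.rpow_le_rpow hz.1 hz.2 (by linarith)).trans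
          (Real.rpow_le_rpow_of_exponent_le hM (by linarith)))
      ⟨hy, hyM⟩ ⟨hx, hxM⟩
    simp only [Real.norm_eq_abs] at h1
    have h3 := rpow_le_mul_rpow (b := 1) (p := 1) hd0 hd hM ha ha1 (by linarith)
    rw [Real.rpow_one, Real.rpow_one] at h3
    have h5 : M ^ (g + 1) = M ^ g * M := Real.rpow_add_one (by linarith) g
    have h6 : 0 ≤ g * M ^ g := mul_nonneg (by linarith) (Real.rpow_nonneg hM0 _)
    have h7 := mul_le_mul_of_nonneg_left h3 h6
    have h8 := le_abs_self (x ^ p - y ^ p)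
    rw [h5]
    nlinarith

end Norm

namespace Wt

variable {ι : Type} [Fintype ι] [DecidableEq ι] {w : Wt ι} {J J' : Set ℝ}
  {T T' l l' m m' n n' : Matrix ι ι ℝ} {r A B R : ℝ}

section Const

omit [DecidableEq ι]

/-- An upper bound for the inverses of the gaps. -/
def gi (w : Wt ι) : ℝ := 1 + ∑ p : ι × ι, |(w.wa p.1 - w.wa p.2)⁻¹|

/-- An upper bound for the gaps. -/
def tp (w : Wt ι) : ℝ := 1 + ∑ p : ι × ι, |w.wa p.1 - w.wa p.2|

/-- The Hoelder exponent of the gauge. -/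
def th (w : Wt ι) : ℝ := w.gi⁻¹ * w.tp⁻¹

/-- The combinatorial constant. -/
def K0 (ι : Type) [Fintype ι] : ℝ := ((Fintype.card ι : ℝ) + 1) ^ (Fintype.card ι + 2)

/-- The constant of the quasi-triangle inequality. -/
def C (w : Wt ι) : ℝ := K0 ι ^ w.gi + K0 ι + 2 * w.gi + w.tp

variable (w)

theorem one_le_gi : 1 ≤ w.gi := le_add_of_nonneg_right (Finset.sum_nonneg fun _ _ => abs_nonneg _)

theorem one_le_tp : 1 ≤ w.tp := le_add_of_nonneg_right (Finset.sum_nonneg fun _ _ => abs_nonneg _)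

theorem inv_le_gi (i j : ι) : (w.wa i - w.wa j)⁻¹ ≤ w.gi := by
  have := Finset.single_le_sum (f := fun p : ι × ι => |(w.wa p.1 - w.wa p.2)⁻¹|)
    (fun _ _ => abs_nonneg _) (Finset.mem_univ (i, j))
  have h2 := le_abs_self (w.wa i - w.wa j)⁻¹
  unfold gi
  linarith

theorem sub_le_tp (i j : ι) : w.wa i - w.wa j ≤ w.tp := by
  have := Finset.single_le_sum (f := fun p : ι × ι => |w.wa p.1 - w.wa p.2|)
    (fun _ _ => abs_nonneg _) (Finset.mem_univ (i, j))
  have h2 := le_abs_self (w.wa i - w.wa j)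
  unfold tp
  linarith

theorem gi_pos : 0 < w.gi := one_pos.trans_le w.one_le_gi

theorem tp_pos : 0 < w.tp := one_pos.trans_le w.one_le_tp

theorem th_pos : 0 < w.th := mul_pos (inv_pos.2 w.gi_pos) (inv_pos.2 w.tp_pos)

theorem th_le_one : w.th ≤ 1 :=
  mul_le_one₀ (inv_le_one_of_one_le₀ w.one_le_gi) (inv_pos.2 w.tp_pos).le
    (inv_le_one_of_one_le₀ w.one_le_tp)

variable {w} in
theorem gi_inv_le {i j : ι} (h : w.wa j < w.wa i) : w.gi⁻¹ ≤ w.wa i - w.wa j :=
  inv_le_of_inv_le₀ (sub_pos.2 h) (w.inv_le_gi i j)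

variable {w} in
theorem tp_inv_le {i j : ι} (h : w.wa j < w.wa i) : w.tp⁻¹ ≤ (w.wa i - w.wa j)⁻¹ :=
  inv_anti₀ (sub_pos.2 h) (w.sub_le_tp i j)

theorem one_le_K0 (ι : Type) [Fintype ι] : 1 ≤ K0 ι :=
  one_le_pow₀ (le_add_of_nonneg_left (Nat.cast_nonneg _))

theorem pow_le_K0 (ι : Type) [Fintype ι] {k : ℕ} (hk : k ≤ Fintype.card ι + 2) :
    (Fintype.card ι : ℝ) ^ k ≤ K0 ι :=
  (pow_le_pow_left₀ (Nat.cast_nonneg _) (le_add_of_nonneg_right zero_le_one) k).trans
    (pow_le_pow_right₀ (le_add_of_nonneg_left (Nat.cast_nonneg _)) hk)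

theorem card_le_K0 (ι : Type) [Fintype ι] : (Fintype.card ι : ℝ) ≤ K0 ι := by
  simpa using pow_le_K0 ι (k := 1) (by omega)

theorem K0_rpow_le_C : K0 ι ^ w.gi ≤ w.C := by
  have := w.gi_pos
  have := w.tp_pos
  have := one_le_K0 ι
  unfold C
  linarith

theorem K0_rpow_nonneg : 0 ≤ K0 ι ^ w.gi := Real.rpow_nonneg (zero_le_one.trans (one_le_K0 ι)) _

theorem card_le_C : (Fintype.card ι : ℝ) ≤ w.C := by
  have := w.gi_pos
  have := w.tp_pos
  have := card_le_K0 ι
  have := w.K0_rpow_nonneg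
  unfold C
  linarith

theorem two_gi_le_C : 2 * w.gi ≤ w.C := by
  have := w.tp_pos
  have := one_le_K0 ι
  have := w.K0_rpow_nonneg
  unfold C
  linarith

theorem tp_le_C : w.tp ≤ w.C := by
  have := w.gi_pos
  have := one_le_K0 ι
  have := w.K0_rpow_nonneg
  unfold C
  linarith

theorem one_le_C : 1 ≤ w.C := w.one_le_tp.trans w.tp_le_C

theorem C_pos : 0 < w.C := one_pos.trans_le w.one_le_C

end Const

section Gauge

omit [DecidableEq ι] in
theorem term_le_N (n : Matrix ι ι ℝ) {i j : ι} (h : w.wa j < w.wa i) :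
    |n i j| ^ (w.wa i - w.wa j)⁻¹ ≤ w.N n := by
  have := le_ciSup (Finite.bddAbove_range fun p : ι × ι =>
    if w.wa p.2 < w.wa p.1 then |n p.1 p.2| ^ (w.wa p.1 - w.wa p.2)⁻¹ else 0) (i, j)
  rw [if_pos h] at this
  exact this

variable (w) in
omit [Fintype ι] [DecidableEq ι] in
theorem N_nonneg (n : Matrix ι ι ℝ) : 0 ≤ w.N n := by
  refine Real.iSup_nonneg fun p => ?_
  split_ifs
  · exact Real.rpow_nonneg (abs_nonneg _) _
  · exact le_rfl

omit [Fintype ι] [DecidableEq ι] in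
theorem N_le_of_term (hr : 0 ≤ r)
    (h : ∀ i j, w.wa j < w.wa i → |n i j| ^ (w.wa i - w.wa j)⁻¹ ≤ r) : w.N n ≤ r := by
  refine Real.iSup_le (fun p => ?_) hr
  split_ifs with hp
  · exact h _ _ hp
  · exact hr

omit [DecidableEq ι] in
theorem N_le_iff (hr : 0 ≤ r) :
    w.N n ≤ r ↔ ∀ i j, w.wa j < w.wa i → |n i j| ≤ r ^ (w.wa i - w.wa j) := by
  constructor
  · intro h i j hij
    exact (Real.rpow_inv_le_iff_of_pos (abs_nonneg _) hr (sub_pos.2 hij)).1
      ((term_le_N n hij).trans h)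
  · intro h
    exact N_le_of_term hr fun i j hij =>
      (Real.rpow_inv_le_iff_of_pos (abs_nonneg _) hr (sub_pos.2 hij)).2 (h i j hij)

omit [DecidableEq ι] in
theorem abs_le_N (n : Matrix ι ι ℝ) {i j : ι} (h : w.wa j < w.wa i) :
    |n i j| ≤ w.N n ^ (w.wa i - w.wa j) :=
  (N_le_iff (w.N_nonneg n)).1 le_rfl i j h

omit [DecidableEq ι] in
theorem N_lt_iff (hr : 0 < r) :
    w.N n < r ↔ ∀ i j, w.wa j < w.wa i → |n i j| < r ^ (w.wa i - w.wa j) := by
  constructor
  · intro h i j hij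
    exact (Real.rpow_inv_lt_iff_of_pos (abs_nonneg _) hr.le (sub_pos.2 hij)).1
      ((term_le_N n hij).trans_lt h)
  · intro h
    rcases isEmpty_or_nonempty (ι × ι) with he | he
    · rwa [N, Real.iSup_of_isEmpty]
    · obtain ⟨p, hp⟩ := exists_eq_ciSup_of_finite (f := fun p : ι × ι =>
        if w.wa p.2 < w.wa p.1 then |n p.1 p.2| ^ (w.wa p.1 - w.wa p.2)⁻¹ else 0)
      rw [N, ← hp]
      split_ifs with hq
      · exact (Real.rpow_inv_lt_iff_of_pos (abs_nonneg _) hr.le (sub_pos.2 hq)).2 (h _ _ hq)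
      · exact hr

omit [DecidableEq ι] in
theorem N_le_N (h : ∀ i j, w.wa j < w.wa i → |n i j| ≤ |n' i j|) : w.N n ≤ w.N n' :=
  (N_le_iff (w.N_nonneg n')).2 fun i j hij => (h i j hij).trans (abs_le_N n' hij)

variable (w) in
theorem N_one : w.N (1 : Matrix ι ι ℝ) = 0 := by
  refine le_antisymm ((N_le_iff le_rfl).2 fun i j hij => ?_) (w.N_nonneg _)
  rw [one_apply_of_lt hij, abs_zero]
  exact Real.rpow_nonneg le_rfl _

theorem Nil.eq_one_of_N (h : w.Nil J n) (h0 : w.N n = 0) : n = 1 := by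
  ext i j
  rcases lt_or_ge (w.wa j) (w.wa i) with hij | hij
  · have := abs_le_N n hij
    rw [h0, Real.zero_rpow (sub_pos.2 hij).ne'] at this
    rw [one_apply_of_lt hij]
    exact abs_nonpos_iff.1 this
  · exact h.apply_of_le hij

theorem Nil.N_eq_zero_iff (h : w.Nil J n) : w.N n = 0 ↔ n = 1 :=
  ⟨h.eq_one_of_N, fun e => by rw [e, N_one]⟩

end Gauge

section Bd

omit [Fintype ι] [DecidableEq ι] in
theorem Bd.mono (h : w.Bd r A T) (hr : 0 ≤ r) (hA : A ≤ B) : w.Bd r B T :=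
  ⟨h.1, fun i j hij => (h.2 i j hij).trans
    (mul_le_mul_of_nonneg_right hA (Real.rpow_nonneg hr _))⟩

omit [Fintype ι] in
theorem abs_one_apply_le (i j : ι) : |(1 : Matrix ι ι ℝ) i j| ≤ 1 := by
  rw [Matrix.one_apply]
  split_ifs <;> simp

theorem Nil.bd (h : w.Nil J n) (hr : w.N n ≤ r) : w.Bd r 1 n := by
  refine ⟨h.tri, fun i j hij => ?_⟩
  rw [one_mul]
  rcases hij.lt_or_eq with hlt | he
  · exact (N_le_iff ((w.N_nonneg n).trans hr)).1 hr i j hlt
  · rw [h.apply_of_le he.ge, he, sub_self, Real.rpow_zero]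
    exact abs_one_apply_le i j

theorem Nil.bd_one_sub (h : w.Nil J n) (hr : w.N n ≤ r) : w.Bd r 1 (1 - n) := by
  have hs : w.Str J (1 - n) := by
    have := Str.neg h
    rwa [neg_sub] at this
  refine ⟨hs.tri, fun i j hij => ?_⟩
  rw [one_mul]
  rcases hij.lt_or_eq with hlt | he
  · rw [Matrix.sub_apply, one_apply_of_lt hlt, zero_sub, abs_neg]
    exact (N_le_iff ((w.N_nonneg n).trans hr)).1 hr i j hlt
  · rw [hs.eq_zero he.ge, abs_zero]
    exact Real.rpow_nonneg ((w.N_nonneg n).trans hr) _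

theorem Lev.bd (h : w.Lev l) (hr : 0 ≤ r) (hB : ‖l‖ ≤ B) : w.Bd r B l := by
  refine ⟨h.tri, fun i j _ => ?_⟩
  by_cases h0 : l i j = 0
  · rw [h0, abs_zero]
    exact mul_nonneg ((norm_nonneg _).trans hB) (Real.rpow_nonneg hr _)
  · rw [h i j h0, sub_self, Real.rpow_zero, mul_one]
    exact (abs_entry_le l i j).trans hB

omit [DecidableEq ι] in
theorem Bd.mul (h : w.Bd r A T) (h' : w.Bd r B T') (hr : 0 ≤ r) (hA : 0 ≤ A) (hB : 0 ≤ B) :
    w.Bd r (Fintype.card ι * A * B) (T * T') := by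
  refine ⟨h.1.mul h'.1, fun i j hij => ?_⟩
  rw [Matrix.mul_apply]
  refine (Finset.abs_sum_le_sum_abs _ _).trans ?_
  have := Finset.sum_le_card_nsmul Finset.univ (fun k => |T i k * T' k j|)
    (A * B * r ^ (w.wa i - w.wa j)) fun k _ => by
      have h0 : 0 ≤ A * B * r ^ (w.wa i - w.wa j) :=
        mul_nonneg (mul_nonneg hA hB) (Real.rpow_nonneg hr _)
      by_cases h1 : T i k = 0
      · simpa [h1] using h0
      by_cases h2 : T' k j = 0
      · simpa [h2] using h0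
      have a1 := h.1 i k h1
      have a2 := h'.1 k j h2
      have e : r ^ (w.wa i - w.wa j) = r ^ (w.wa i - w.wa k) * r ^ (w.wa k - w.wa j) := by
        rw [← Real.rpow_add_of_nonneg hr (sub_nonneg.2 a1) (sub_nonneg.2 a2), sub_add_sub_cancel]
      rw [abs_mul, e, mul_mul_mul_comm]
      exact mul_le_mul (h.2 i k a1) (h'.2 k j a2) (abs_nonneg _)
        (mul_nonneg hA (Real.rpow_nonneg hr _))
  simpa [mul_assoc] using this

omit [Fintype ι] [DecidableEq ι] in
theorem Bd.add (h : w.Bd r A T) (h' : w.Bd r B T') : w.Bd r (A + B) (T + T') := by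
  refine ⟨h.1.add h'.1, fun i j hij => ?_⟩
  rw [Matrix.add_apply, add_mul]
  exact (abs_add_le _ _).trans (add_le_add (h.2 i j hij) (h'.2 i j hij))

theorem Bd.pow (h : w.Bd r 1 T) (hr : 0 ≤ r) (k : ℕ) :
    w.Bd r ((Fintype.card ι : ℝ) ^ k) (T ^ k) := by
  induction k with
  | zero =>
    rw [pow_zero, pow_zero]
    exact (Nil.one (J := univ)).bd (by rwa [N_one])
  | succ k ih =>
    have := ih.mul h hr (by positivity) zero_le_one
    rwa [mul_one, ← pow_succ', ← pow_succ] at this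

omit [DecidableEq ι] in
theorem Bd.N_le (h : w.Bd r A n) (hr : 0 ≤ r) (hA : 1 ≤ A) : w.N n ≤ A ^ w.gi * r := by
  have hA0 : 0 ≤ A := zero_le_one.trans hA
  refine N_le_of_term (mul_nonneg (Real.rpow_nonneg hA0 _) hr) fun i j hij => ?_
  have hd := sub_pos.2 hij
  refine (Real.rpow_le_rpow (abs_nonneg _) (h.2 i j hij.le) (inv_pos.2 hd).le).trans ?_
  rw [Real.mul_rpow hA0 (Real.rpow_nonneg hr _), Real.rpow_rpow_inv hr hd.ne']
  exact mul_le_mul_of_nonneg_right (Real.rpow_le_rpow_of_exponent_le hA (w.inv_le_gi i j)) hr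

theorem Bd.norm_le (h : w.Bd r A T) (hr : 0 ≤ r) (hA : 0 ≤ A) :
    ‖T‖ ≤ Fintype.card ι * (A * (1 + r) ^ w.tp) := by
  have h0 : 0 ≤ A * (1 + r) ^ w.tp := mul_nonneg hA (Real.rpow_nonneg (by linarith) _)
  refine norm_le_of_entry h0 fun i j => ?_
  by_cases h1 : T i j = 0
  · simpa [h1] using h0
  have a1 := h.1 i j h1
  refine (h.2 i j a1).trans (mul_le_mul_of_nonneg_left ?_ hA)
  exact (Real.rpow_le_rpow hr (by linarith) (sub_nonneg.2 a1)).trans
    (Real.rpow_le_rpow_of_exponent_le (by linarith) (w.sub_le_tp i j))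

omit [DecidableEq ι] in
theorem Bd.N_le_C (h : w.Bd r A n) (hr : 0 ≤ r) (hA : A ≤ K0 ι) : w.N n ≤ w.C * r :=
  ((h.mono hr hA).N_le hr (one_le_K0 ι)).trans (mul_le_mul_of_nonneg_right w.K0_rpow_le_C hr)

end Bd

section Ineq

/-- N1. -/
theorem Nil.N_mul_le (h : w.Nil J n) (h' : w.Nil J' n') (hr : w.N n ≤ r) (hr' : w.N n' ≤ r) :
    w.N (n * n') ≤ w.C * r := by
  have h0 := (w.N_nonneg n).trans hr
  refine ((h.bd hr).mul (h'.bd hr') h0 zero_le_one zero_le_one).N_le_C h0 ?_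
  simpa using card_le_K0 ι

theorem Nil.N_mul_le_add (h : w.Nil J n) (h' : w.Nil J' n') :
    w.N (n * n') ≤ w.C * (w.N n + w.N n') :=
  h.N_mul_le h' (le_add_of_nonneg_right (w.N_nonneg _)) (le_add_of_nonneg_left (w.N_nonneg _))

theorem Nil.bd_inv (h : w.Nil J n) (hr : w.N n ≤ r) : w.Bd r (K0 ι) n⁻¹ := by
  have h0 := (w.N_nonneg n).trans hr
  have h1 : ∀ K : ℕ, w.Bd r (∑ k ∈ Finset.range K, (Fintype.card ι : ℝ) ^ k)
      (∑ k ∈ Finset.range K, (1 - n) ^ k) := by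
    intro K
    induction K with
    | zero => exact ⟨fun _ _ h => absurd rfl h, fun i j _ => by simp⟩
    | succ K ih =>
      rw [Finset.sum_range_succ, Finset.sum_range_succ]
      exact ih.add ((h.bd_one_sub hr).pow h0 K)
  rw [h.inv_eq]
  refine (h1 _).mono h0 ?_
  set c : ℝ := (Fintype.card ι : ℝ) with hc
  have c0 : 0 ≤ c := Nat.cast_nonneg _
  have := Finset.sum_le_card_nsmul (Finset.range (Fintype.card ι)) (fun k => c ^ k)
    ((c + 1) ^ Fintype.card ι) fun k hk =>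
      (pow_le_pow_left₀ c0 (le_add_of_nonneg_right zero_le_one) k).trans
        (pow_le_pow_right₀ (le_add_of_nonneg_left c0) (Finset.mem_range.1 hk).le)
  refine this.trans ?_
  rw [Finset.card_range, nsmul_eq_mul, K0, ← hc, pow_add, mul_comm]
  exact mul_le_mul_of_nonneg_left (by nlinarith) (by positivity)

/-- N2. -/
theorem Nil.N_inv_le (h : w.Nil J n) : w.N n⁻¹ ≤ w.C * w.N n :=
  (h.bd_inv le_rfl).N_le_C (w.N_nonneg n) le_rfl

/-- N3. -/
theorem Nil.N_conj_le (h : w.Nil J n) (hl : w.Lev l) (hl' : w.Lev l') (hB : 1 ≤ B) (h1 : ‖l‖ ≤ B)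
    (h2 : ‖l'‖ ≤ B) : w.N (l * n * l') ≤ w.C * B ^ w.C * w.N n := by
  have h0 := w.N_nonneg n
  have B0 : 0 ≤ B := zero_le_one.trans hB
  have hb := ((hl.bd h0 h1).mul (h.bd le_rfl) h0 B0 zero_le_one).mul (hl'.bd h0 h2) h0
    (by positivity) B0
  have hK := one_le_K0 ι
  have hle : (Fintype.card ι : ℝ) * (Fintype.card ι * B * 1) * B ≤ K0 ι * B ^ (2 : ℝ) := by
    have := pow_le_K0 ι (k := 2) (by omega)
    rw [Real.rpow_two]
    nlinarith [sq_nonneg B]
  have h1B : 1 ≤ B ^ (2 : ℝ) := Real.one_le_rpow hB (by norm_num)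
  refine ((hb.mono h0 hle).N_le h0 (one_le_mul_of_one_le_of_one_le hK h1B)).trans (mul_le_mul_of_nonneg_right ?_ h0)
  rw [Real.mul_rpow (by linarith) (by linarith), ← Real.rpow_mul B0]
  exact mul_le_mul w.K0_rpow_le_C (Real.rpow_le_rpow_of_exponent_le hB w.two_gi_le_C)
    (Real.rpow_nonneg B0 _) w.C_pos.le

theorem Nil.norm_le (h : w.Nil J n) (hr : w.N n ≤ r) : ‖n‖ ≤ w.C * (1 + r) ^ w.C := by
  have h0 := (w.N_nonneg n).trans hr
  refine ((h.bd hr).norm_le h0 zero_le_one).trans ?_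
  rw [one_mul]
  exact mul_le_mul w.card_le_C (Real.rpow_le_rpow_of_exponent_le (by linarith) w.tp_le_C)
    (Real.rpow_nonneg (by linarith) _) w.C_pos.le

theorem Nil.norm_sub_one_le (h : w.Nil J n) (hR : 1 ≤ R) (hr : w.N n ≤ R) :
    ‖n - 1‖ ≤ Fintype.card ι * (R ^ w.tp * w.N n ^ w.gi⁻¹) := by
  have h0 := w.N_nonneg n
  have hc : 0 ≤ R ^ w.tp * w.N n ^ w.gi⁻¹ :=
    mul_nonneg (Real.rpow_nonneg (by linarith) _) (Real.rpow_nonneg h0 _)
  refine norm_le_of_entry hc fun i j => ?_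
  rcases lt_or_ge (w.wa j) (w.wa i) with hij | hij
  · rw [Matrix.sub_apply, one_apply_of_lt hij, sub_zero]
    refine (abs_le_N n hij).trans (rpow_le_mul_rpow h0 hr hR (inv_pos.2 w.gi_pos).le
      (gi_inv_le hij) ?_)
    linarith [w.sub_le_tp i j, inv_pos.2 w.gi_pos]
  · rwa [Str.eq_zero h hij, abs_zero]

theorem N_le_of_norm (hB : 1 ≤ B) (h : ‖n‖ ≤ B) : w.N n ≤ B ^ w.gi :=
  N_le_of_term (Real.rpow_nonneg (by linarith) _) fun i j hij =>
    (Real.rpow_le_rpow (abs_nonneg _) ((abs_entry_le n i j).trans h)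
      (inv_pos.2 (sub_pos.2 hij)).le).trans (Real.rpow_le_rpow_of_exponent_le hB (w.inv_le_gi i j))

theorem N_le_of_norm_sub_one (h : ‖n - 1‖ ≤ 1) : w.N n ≤ ‖n - 1‖ ^ w.tp⁻¹ := by
  refine N_le_of_term (Real.rpow_nonneg (norm_nonneg _) _) fun i j hij => ?_
  have := abs_entry_le (n - 1) i j
  rw [Matrix.sub_apply, one_apply_of_lt hij, sub_zero] at this
  refine (Real.rpow_le_rpow (abs_nonneg _) this (inv_pos.2 (sub_pos.2 hij)).le).trans ?_
  exact Real.rpow_le_rpow_of_exponent_ge' (norm_nonneg _) h (inv_pos.2 w.tp_pos).le (tp_inv_le hij)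

/-- N4, general form. -/
theorem Nil.N_dil_le (h : w.Nil J n) {s t c : ℝ} (hc : ∀ σ ∈ J, s + t * σ ≤ c) :
    w.N (w.dil s t * n * w.dil (-s) (-t)) ≤ Real.exp c * w.N n := by
  have h0 := w.N_nonneg n
  refine (N_le_iff (by positivity)).2 fun i j hij => ?_
  by_cases hn : n i j = 0
  · rw [dil_conj_apply, hn, mul_zero, abs_zero]
    positivity
  have hs := hc _ (h.slope_mem hij hn)
  rw [dil_conj_apply, abs_mul, abs_of_pos (Real.exp_pos _), Real.mul_rpow (Real.exp_pos _).le h0,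
    ← Real.exp_mul, ← slope_mul hij]
  refine mul_le_mul (Real.exp_le_exp.2 ?_) (abs_le_N n hij) (abs_nonneg _) (Real.exp_pos _).le
  nlinarith [sub_pos.2 hij]

/-- N4. -/
theorem N_dil (s : ℝ) (n : Matrix ι ι ℝ) :
    w.N (w.dil s 0 * n * w.dil (-s) 0) = Real.exp s * w.N n := by
  have key : ∀ (s : ℝ) (n : Matrix ι ι ℝ),
      w.N (w.dil s 0 * n * w.dil (-s) 0) ≤ Real.exp s * w.N n := by
    intro s n
    have h0 := w.N_nonneg n
    refine (N_le_iff (by positivity)).2 fun i j hij => ?_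
    have := w.dil_conj_apply s 0 n i j
    rw [neg_zero] at this
    rw [this, abs_mul, abs_of_pos (Real.exp_pos _), Real.mul_rpow (Real.exp_pos _).le h0,
      ← Real.exp_mul, zero_mul, add_zero]
    exact mul_le_mul_of_nonneg_left (abs_le_N n hij) (Real.exp_pos _).le
  refine le_antisymm (key s n) ?_
  have h1 := key (-s) (w.dil s 0 * n * w.dil (-s) 0)
  have e : w.dil (-s) 0 * w.dil s 0 = 1 := by simpa using w.dil_neg_mul s 0
  rw [neg_neg, ← mul_assoc, ← mul_assoc, e, one_mul, mul_assoc, e, mul_one] at h1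
  have := mul_le_mul_of_nonneg_left h1 (Real.exp_pos s).le
  rwa [← mul_assoc, ← Real.exp_add, add_neg_cancel, Real.exp_zero, one_mul] at this

theorem N_holder {M : ℝ} (hM : 1 ≤ M) (h : ‖n‖ ≤ M) (h' : ‖n'‖ ≤ M) :
    |w.N n - w.N n'| ≤ w.gi * M ^ (w.gi + 1) * ‖n - n'‖ ^ w.tp⁻¹ := by
  have hc : 0 ≤ w.gi * M ^ (w.gi + 1) := mul_nonneg w.gi_pos.le (Real.rpow_nonneg (by linarith) _)
  have key : ∀ n n' : Matrix ι ι ℝ, ‖n‖ ≤ M → ‖n'‖ ≤ M →
      w.N n ≤ w.N n' + w.gi * M ^ (w.gi + 1) * ‖n - n'‖ ^ w.tp⁻¹ := by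
    intro n n' h h'
    refine N_le_of_term (add_nonneg (w.N_nonneg _) (by positivity)) fun i j hij => ?_
    refine (rpow_holder (abs_nonneg (n i j)) ((abs_entry_le n i j).trans h) (abs_nonneg (n' i j))
      ((abs_entry_le n' i j).trans h') hM (inv_pos.2 w.tp_pos).le
      (inv_le_one_of_one_le₀ w.one_le_tp) (tp_inv_le hij) w.one_le_gi (w.inv_le_gi i j)).trans ?_
    refine add_le_add (term_le_N n' hij) (mul_le_mul_of_nonneg_left ?_ hc)
    exact Real.rpow_le_rpow (abs_nonneg _)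
      ((abs_abs_sub_abs_le_abs_sub _ _).trans (abs_entry_le (n - n') i j)) (inv_pos.2 w.tp_pos).le
  have h1 := key n n' h h'
  have h2 := key n' n h' h
  rw [norm_sub_rev] at h2
  exact abs_le.2 ⟨by linarith, by linarith⟩

variable (w) in
/-- N5. -/
theorem exists_N_holder (R : ℝ) : ∃ K, 0 ≤ K ∧ ∀ n n' : Matrix ι ι ℝ, w.Nil univ n →
    w.Nil univ n' → w.N n ≤ R → w.N n' ≤ R →
      |w.N (n * n') - w.N n| ≤ K * w.N n' ^ w.th ∧ |w.N (n' * n) - w.N n| ≤ K * w.N n' ^ w.th := by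
  obtain ⟨R', hR1, hR⟩ : ∃ R', 1 ≤ R' ∧ R ≤ R' := ⟨max 1 R, le_max_left _ _, le_max_right _ _⟩
  set M0 := w.C * (1 + R') ^ w.C with hM0
  have M1 : 1 ≤ M0 :=
    one_le_mul_of_one_le_of_one_le w.one_le_C (Real.one_le_rpow (by linarith) w.C_pos.le)
  have M2 : 1 ≤ M0 * M0 := one_le_mul_of_one_le_of_one_le M1 M1
  have hc : 0 ≤ w.gi * (M0 * M0) ^ (w.gi + 1) :=
    mul_nonneg w.gi_pos.le (Real.rpow_nonneg (by linarith) _)
  have hq : 0 ≤ M0 * (Fintype.card ι * R' ^ w.tp) := by positivity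
  refine ⟨w.gi * (M0 * M0) ^ (w.gi + 1) * (M0 * (Fintype.card ι * R' ^ w.tp)) ^ w.tp⁻¹,
    mul_nonneg hc (Real.rpow_nonneg hq _), fun n n' h h' hn hn' => ?_⟩
  have b1 : ‖n‖ ≤ M0 := h.norm_le (hn.trans hR)
  have b2 : ‖n'‖ ≤ M0 := h'.norm_le (hn'.trans hR)
  have b3 := h'.norm_sub_one_le hR1 (hn'.trans hR)
  have b4 : ‖n‖ ≤ M0 * M0 := b1.trans (le_mul_of_one_le_right (by linarith) M1)
  have h0 := w.N_nonneg n'
  have key : ∀ p : Matrix ι ι ℝ, ‖p‖ ≤ M0 * M0 → ‖p - n‖ ≤ ‖n‖ * ‖n' - 1‖ → |w.N p - w.N n| ≤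
      w.gi * (M0 * M0) ^ (w.gi + 1) * (M0 * (Fintype.card ι * R' ^ w.tp)) ^ w.tp⁻¹ *
        w.N n' ^ w.th := by
    intro p hp hd
    refine (N_holder M2 hp b4).trans ?_
    rw [mul_assoc (w.gi * (M0 * M0) ^ (w.gi + 1))]
    refine mul_le_mul_of_nonneg_left ?_ hc
    rw [th, Real.rpow_mul h0, ← Real.mul_rpow hq (Real.rpow_nonneg h0 _)]
    refine Real.rpow_le_rpow (norm_nonneg _) (hd.trans ?_) (inv_pos.2 w.tp_pos).le
    rw [mul_assoc M0, mul_assoc (Fintype.card ι : ℝ)]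
    exact mul_le_mul b1 b3 (norm_nonneg _) (by linarith)
  constructor
  · refine key _ ((norm_mul_le _ _).trans (mul_le_mul b1 b2 (norm_nonneg _) (by linarith))) ?_
    rw [show n * n' - n = n * (n' - 1) by noncomm_ring]
    exact norm_mul_le _ _
  · refine key _ ((norm_mul_le _ _).trans (mul_le_mul b2 b1 (norm_nonneg _) (by linarith))) ?_
    rw [show n' * n - n = (n' - 1) * n by noncomm_ring, mul_comm ‖n‖]
    exact norm_mul_le _ _

end Ineq

section Top

variable (w)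

omit [DecidableEq ι] in
/-- N6. -/
theorem continuous_N : Continuous w.N := by
  rcases isEmpty_or_nonempty (ι × ι) with he | he
  · have : w.N = fun _ => 0 := funext fun n => Real.iSup_of_isEmpty _
    rw [this]
    exact continuous_const
  · have : w.N = fun n => Finset.univ.sup' Finset.univ_nonempty fun p : ι × ι =>
        if w.wa p.2 < w.wa p.1 then |n p.1 p.2| ^ (w.wa p.1 - w.wa p.2)⁻¹ else 0 :=
      funext fun n => (Finset.sup'_univ_eq_ciSup _).symm
    rw [this]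
    refine Continuous.finset_sup'_apply _ fun p _ => ?_
    split_ifs with hp
    · exact (continuous_id.matrix_elem p.1 p.2).abs.rpow_const
        fun _ => Or.inr (inv_pos.2 (sub_pos.2 hp)).le
    · exact continuous_const

omit [DecidableEq ι] in
theorem measurable_N : Measurable w.N := w.continuous_N.measurable

omit [Fintype ι] [DecidableEq ι] in
theorem isClosed_supp (P : ι → ι → Prop) :
    IsClosed {T : Matrix ι ι ℝ | ∀ i j, T i j ≠ 0 → P i j} := by
  have e0 : {T : Matrix ι ι ℝ | ∀ i j, T i j ≠ 0 → P i j} =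
      ⋂ i, ⋂ j, {T : Matrix ι ι ℝ | T i j ≠ 0 → P i j} := by
    ext T
    simp only [mem_ofPred_eq, mem_iInter]
  rw [e0]
  refine isClosed_iInter fun i => isClosed_iInter fun j => ?_
  by_cases hP : P i j
  · simp [hP]
  · have e : {T : Matrix ι ι ℝ | T i j ≠ 0 → P i j} = {T | T i j = 0} := by
      ext T
      simp [hP]
    rw [e]
    exact isClosed_eq (continuous_id.matrix_elem i j) continuous_const

omit [Fintype ι] [DecidableEq ι] in
theorem isClosed_Tri : IsClosed {T | w.Tri T} := isClosed_supp _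

omit [Fintype ι] [DecidableEq ι] in
theorem isClosed_Lev : IsClosed {T | w.Lev T} := isClosed_supp _

omit [Fintype ι] [DecidableEq ι] in
theorem isClosed_Str (J : Set ℝ) : IsClosed {T | w.Str J T} := isClosed_supp _

omit [Fintype ι] in
theorem isClosed_Nil (J : Set ℝ) : IsClosed {n | w.Nil J n} :=
  (w.isClosed_Str J).preimage (continuous_id.sub continuous_const)

theorem measurableSet_Nil (J : Set ℝ) : MeasurableSet {n | w.Nil J n} :=
  (w.isClosed_Nil J).measurableSet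

/-- N6: balls are compact. -/
theorem isCompact_ball (J : Set ℝ) (R : ℝ) : IsCompact {n | w.Nil J n ∧ w.N n ≤ R} := by
  refine Metric.isCompact_of_isClosed_isBounded
    ((w.isClosed_Nil J).inter (isClosed_le w.continuous_N continuous_const)) ?_
  exact isBounded_iff_forall_norm_le.2 ⟨_, fun n hn => hn.1.norm_le hn.2⟩

omit [Fintype ι] [DecidableEq ι] in
theorem continuous_lev : Continuous w.lev := by
  refine continuous_matrix fun i j => ?_
  simp only [lev_apply]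
  split_ifs
  · exact continuous_id.matrix_elem i j
  · exact continuous_const

theorem norm_lev_le (T : Matrix ι ι ℝ) : ‖w.lev T‖ ≤ ‖T‖ := by
  have : ‖w.lev T‖₊ ≤ ‖T‖₊ := by
    rw [Matrix.linfty_opNNNorm_def, Matrix.linfty_opNNNorm_def]
    refine Finset.sup_mono_fun fun i _ => Finset.sum_le_sum fun j _ => ?_
    rw [lev_apply]
    split_ifs <;> simp
  exact_mod_cast this

theorem continuousOn_inv_Nil : ContinuousOn (fun n : Matrix ι ι ℝ => n⁻¹) {n | w.Nil univ n} := by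
  refine ContinuousOn.congr (f := fun n => ∑ k ∈ Finset.range (Fintype.card ι), (1 - n) ^ k)
    (Continuous.continuousOn (by fun_prop)) fun n hn => hn.inv_eq

end Top

end Wt

section Meas

variable {ι : Type} [Fintype ι] [DecidableEq ι] {α : Type*} [MeasurableSpace α]

theorem measurable_matrix_inv : Measurable fun T : Matrix ι ι ℝ => T⁻¹ := by
  have e : (fun T : Matrix ι ι ℝ => T⁻¹) = fun T => T.det⁻¹ • T.adjugate := by
    funext T
    rw [Matrix.inv_def, Ring.inverse_eq_inv']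
  rw [e]
  exact (continuous_id.matrix_det.measurable.inv).smul continuous_id.matrix_adjugate.measurable

theorem Measurable.minv {f : α → Matrix ι ι ℝ} (hf : Measurable f) : Measurable fun x => (f x)⁻¹ :=
  measurable_matrix_inv.comp hf

omit [DecidableEq ι] in
theorem Measurable.mmul {f g : α → Matrix ι ι ℝ} (hf : Measurable f) (hg : Measurable g) :
    Measurable fun x => f x * g x :=
  (continuous_fst.matrix_mul continuous_snd).measurable.comp (hf.prodMk hg)

omit [DecidableEq ι] in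
theorem Wt.measurable_lev (w : Wt ι) : Measurable w.lev := w.continuous_lev.measurable

theorem Wt.measurable_nil (w : Wt ι) : Measurable w.nil :=
  Measurable.mmul measurable_id (Measurable.minv w.measurable_lev)

end Meas

end Pool.Agent.P.MP_d483fb_an.Z
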