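import Pool.Agent.P.MP_d483fb_an.Z.Grp.Defs

/-!
Algebra of the graded groups: closure properties, the decomposition `T = nil T * lev T`.
-/

open scoped Matrix Matrix.Norms.Operator
open Set

noncomputable section

namespace Pool.Agent.P.MP_d483fb_an.Z

namespace Wt

variable {ι : Type} [Fintype ι] [DecidableEq ι] {w : Wt ι} {J J' : Set ℝ}
  {T T' l l' m m' n n' : Matrix ι ι ℝ}

omit [DecidableEq ι] in
theorem exists_of_mul_ne {i j : ι} (h : (T * T') i j ≠ 0) : ∃ k, T i k ≠ 0 ∧ T' k j ≠ 0 := by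
  rw [Matrix.mul_apply] at h
  obtain ⟨k, -, hk⟩ := Finset.exists_ne_zero_of_sum_ne_zero h
  exact ⟨k, left_ne_zero_of_mul hk, right_ne_zero_of_mul hk⟩

omit [Fintype ι] in
theorem eq_of_one_ne {i j : ι} (h : (1 : Matrix ι ι ℝ) i j ≠ 0) : i = j := by
  by_contra hij
  exact h (Matrix.one_apply_ne hij)

section Tri

omit [Fintype ι] [DecidableEq ι] in
theorem Lev.tri (h : w.Lev l) : w.Tri l := fun i j hij => (h i j hij).ge

omit [Fintype ι] [DecidableEq ι] in
theorem Str.tri (h : w.Str J m) : w.Tri m := fun i j hij => (h i j hij).1.le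

omit [Fintype ι] in
theorem Lev.one : w.Lev (1 : Matrix ι ι ℝ) := fun i j h => by rw [eq_of_one_ne h]

omit [Fintype ι] in
theorem Tri.one : w.Tri (1 : Matrix ι ι ℝ) := Lev.one.tri

omit [Fintype ι] [DecidableEq ι] in
theorem Tri.eq_zero (h : w.Tri T) {i j : ι} (hij : w.wa i < w.wa j) : T i j = 0 := by
  by_contra h0
  exact absurd (h i j h0) (not_le.2 hij)

omit [Fintype ι] [DecidableEq ι] in
theorem Tri.add (h : w.Tri T) (h' : w.Tri T') : w.Tri (T + T') := by
  intro i j hij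
  by_contra hlt
  apply hij
  rw [Matrix.add_apply, h.eq_zero (not_le.1 hlt), h'.eq_zero (not_le.1 hlt), add_zero]

omit [DecidableEq ι] in
theorem Tri.mul (h : w.Tri T) (h' : w.Tri T') : w.Tri (T * T') := by
  intro i j hij
  obtain ⟨k, h1, h2⟩ := exists_of_mul_ne hij
  exact (h' k j h2).trans (h i k h1)

omit [DecidableEq ι] in
theorem Lev.mul (h : w.Lev l) (h' : w.Lev l') : w.Lev (l * l') := by
  intro i j hij
  obtain ⟨k, h1, h2⟩ := exists_of_mul_ne hij
  exact (h i k h1).trans (h' k j h2)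

theorem Tri.inv (h : w.Tri T) : w.Tri T⁻¹ := by
  by_cases hu : IsUnit T.det
  · have hb : Matrix.BlockTriangular T fun i => -w.wa i := by
      intro i j hij
      exact h.eq_zero (by simpa using hij)
    let _ := Matrix.invertibleOfIsUnitDet T hu
    have := Matrix.blockTriangular_inv_of_blockTriangular hb
    intro i j hij
    by_contra hlt
    exact hij (this (by simpa using not_le.1 hlt))
  · rw [Matrix.nonsing_inv_apply_not_isUnit _ hu]
    intro i j hij
    exact absurd rfl hij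

omit [Fintype ι] [DecidableEq ι] in
theorem Lev.transpose (h : w.Lev l) : w.Lev lᵀ := fun i j hij => (h j i hij).symm

theorem Lev.inv (h : w.Lev l) : w.Lev l⁻¹ := by
  intro i j hij
  have h1 := h.tri.inv i j hij
  have h2 := h.transpose.tri.inv j i (by rw [← Matrix.transpose_nonsing_inv]; exact hij)
  exact le_antisymm h2 h1

omit [Fintype ι] in
theorem Lev.diagonal (d : ι → ℝ) : w.Lev (Matrix.diagonal d) := by
  intro i j hij
  by_contra hne
  exact hij (Matrix.diagonal_apply_ne d fun h => hne (by rw [h]))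

end Tri

section Str

omit [Fintype ι] [DecidableEq ι] in
theorem Str.zero : w.Str J (0 : Matrix ι ι ℝ) := fun _ _ h => absurd rfl h

omit [Fintype ι] [DecidableEq ι] in
theorem Str.mono (h : w.Str J m) (hJ : J ⊆ J') : w.Str J' m :=
  fun i j hij => ⟨(h i j hij).1, hJ (h i j hij).2⟩

omit [Fintype ι] [DecidableEq ι] in
theorem Str.add (h : w.Str J m) (h' : w.Str J m') : w.Str J (m + m') := by
  intro i j hij
  by_cases h0 : m i j = 0
  · exact h' i j (by simpa [h0] using hij)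
  · exact h i j h0

omit [Fintype ι] [DecidableEq ι] in
theorem Str.smul (h : w.Str J m) (c : ℝ) : w.Str J (c • m) :=
  fun i j hij => h i j (right_ne_zero_of_mul hij)

omit [Fintype ι] [DecidableEq ι] in
theorem Str.neg (h : w.Str J m) : w.Str J (-m) :=
  fun i j hij => h i j (neg_ne_zero.1 hij)

omit [Fintype ι] [DecidableEq ι] in
theorem Str.sub (h : w.Str J m) (h' : w.Str J m') : w.Str J (m - m') := by
  rw [sub_eq_add_neg]
  exact h.add h'.neg

omit [Fintype ι] [DecidableEq ι] in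
theorem Str.sum {α : Type*} {s : Finset α} {f : α → Matrix ι ι ℝ} (h : ∀ a ∈ s, w.Str J (f a)) :
    w.Str J (∑ a ∈ s, f a) :=
  Finset.sum_induction f (w.Str J) (fun _ _ => Str.add) Str.zero h

omit [Fintype ι] [DecidableEq ι] in
theorem Str.eq_zero (h : w.Str J m) {i j : ι} (hij : w.wa i ≤ w.wa j) : m i j = 0 := by
  by_contra h0
  exact absurd (h i j h0).1 (not_lt.2 hij)

omit [Fintype ι] [DecidableEq ι] in
theorem slope_mul {i j : ι} (h : w.wa j < w.wa i) :
    w.slope i j * (w.wa i - w.wa j) = w.wb i - w.wb j :=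
  div_mul_cancel₀ _ (sub_pos.2 h).ne'

omit [Fintype ι] [DecidableEq ι] in
/-- The mediant property. -/
theorem slope_mem_uIcc {i k j : ι} (h1 : w.wa k < w.wa i) (h2 : w.wa j < w.wa k) :
    w.slope i j ∈ uIcc (w.slope i k) (w.slope k j) := by
  have e1 := slope_mul h1
  have e2 := slope_mul h2
  have e3 := slope_mul (h2.trans h1)
  have p1 := sub_pos.2 h1
  have p2 := sub_pos.2 h2
  rcases le_total (w.slope i k) (w.slope k j) with h | h
  · rw [uIcc_of_le h]
    constructor <;> by_contra hc <;> push Not at hc <;> nlinarith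
  · rw [uIcc_of_ge h]
    constructor <;> by_contra hc <;> push Not at hc <;> nlinarith

omit [Fintype ι] [DecidableEq ι] in
theorem slope_congr {i j i' j' : ι} (hi : w.wa i = w.wa i') (hj : w.wa j = w.wa j') :
    w.slope i j = w.slope i' j' := by
  unfold slope
  rw [hi, hj, w.hab _ _ hi, w.hab _ _ hj]

omit [DecidableEq ι] in
theorem Str.mul (hJ : J.OrdConnected) (h : w.Str J m) (h' : w.Str J m') : w.Str J (m * m') := by
  intro i j hij
  obtain ⟨k, h1, h2⟩ := exists_of_mul_ne hij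
  obtain ⟨a1, b1⟩ := h i k h1
  obtain ⟨a2, b2⟩ := h' k j h2
  exact ⟨a2.trans a1, hJ.uIcc_subset b1 b2 (slope_mem_uIcc a1 a2)⟩

omit [DecidableEq ι] in
theorem Str.lev_mul (h : w.Str J m) (hl : w.Lev l) : w.Str J (l * m) := by
  intro i j hij
  obtain ⟨k, h1, h2⟩ := exists_of_mul_ne hij
  obtain ⟨a2, b2⟩ := h k j h2
  have e := hl i k h1
  exact ⟨e ▸ a2, by rwa [slope_congr e rfl]⟩

omit [DecidableEq ι] in
theorem Str.mul_lev (h : w.Str J m) (hl : w.Lev l) : w.Str J (m * l) := by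
  intro i j hij
  obtain ⟨k, h1, h2⟩ := exists_of_mul_ne hij
  obtain ⟨a2, b2⟩ := h i k h1
  have e := hl k j h2
  exact ⟨e ▸ a2, by rwa [slope_congr rfl e.symm]⟩

theorem Str.pow_succ (hJ : J.OrdConnected) (h : w.Str J m) (k : ℕ) : w.Str J (m ^ (k + 1)) := by
  induction k with
  | zero => simpa using h
  | succ k ih => rw [_root_.pow_succ]; exact ih.mul hJ h

omit [DecidableEq ι] in
/-- The number of indices of smaller weight. -/
def rk (w : Wt ι) (i : ι) : ℕ := (Finset.univ.filter fun k => w.wa k < w.wa i).card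

omit [DecidableEq ι] in
theorem rk_lt_rk {i j : ι} (h : w.wa j < w.wa i) : w.rk j < w.rk i := by
  apply Finset.card_lt_card
  rw [Finset.ssubset_iff_of_subset]
  · exact ⟨j, by simpa using h, by simp⟩
  · intro k hk
    simp only [Finset.mem_filter, Finset.mem_univ, true_and] at hk ⊢
    exact hk.trans h

omit [DecidableEq ι] in
theorem rk_lt_card (i : ι) : w.rk i < Fintype.card ι := by
  apply Finset.card_lt_card
  rw [Finset.ssubset_iff_of_subset (Finset.subset_univ _)]
  exact ⟨i, by simp, by simp⟩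

theorem Str.rk_pow (h : w.Str J m) (k : ℕ) : ∀ i j, (m ^ k) i j ≠ 0 → w.rk j + k ≤ w.rk i := by
  induction k with
  | zero =>
    intro i j hij
    rw [pow_zero] at hij
    rw [eq_of_one_ne hij]
    simp
  | succ k ih =>
    intro i j hij
    rw [_root_.pow_succ] at hij
    obtain ⟨p, h1, h2⟩ := exists_of_mul_ne hij
    have := ih i p h1
    have := rk_lt_rk (h p j h2).1
    omega

theorem Str.pow_card (h : w.Str J m) : m ^ Fintype.card ι = 0 := by
  ext i j
  by_contra hij
  have := h.rk_pow _ i j hij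
  have := rk_lt_card (w := w) i
  omega

theorem Str.isNilpotent (h : w.Str J m) : IsNilpotent m := ⟨_, h.pow_card⟩

end Str

section Nil

omit [Fintype ι] in
theorem Nil.one : w.Nil J (1 : Matrix ι ι ℝ) := by
  unfold Nil
  rw [sub_self]
  exact Str.zero

omit [Fintype ι] in
theorem Nil.mono (h : w.Nil J n) (hJ : J ⊆ J') : w.Nil J' n := Str.mono h hJ

omit [Fintype ι] in
theorem Nil.univ (h : w.Nil J n) : w.Nil univ n := h.mono (subset_univ _)

omit [Fintype ι] in
theorem Str.nil (h : w.Str J m) : w.Nil J (1 + m) := by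
  unfold Nil
  rwa [add_sub_cancel_left]

omit [Fintype ι] in
theorem Nil.tri (h : w.Nil J n) : w.Tri n := by
  have := Tri.one.add (Str.tri h)
  rwa [add_sub_cancel] at this

omit [Fintype ι] in
theorem Nil.apply_of_le (h : w.Nil J n) {i j : ι} (hij : w.wa i ≤ w.wa j) :
    n i j = (1 : Matrix ι ι ℝ) i j := by
  have := Str.eq_zero h hij
  rwa [Matrix.sub_apply, sub_eq_zero] at this

omit [Fintype ι] in
theorem one_apply_of_lt {i j : ι} (hij : w.wa j < w.wa i) : (1 : Matrix ι ι ℝ) i j = 0 :=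
  Matrix.one_apply_ne fun h => hij.ne' (by rw [h])

omit [Fintype ι] in
theorem Nil.slope_mem (h : w.Nil J n) {i j : ι} (hij : w.wa j < w.wa i) (h0 : n i j ≠ 0) :
    w.slope i j ∈ J :=
  (h i j (by rwa [Matrix.sub_apply, one_apply_of_lt hij, sub_zero])).2

omit [Fintype ι] in
theorem nil_iff : w.Nil J n ↔ (∀ i j, w.wa i ≤ w.wa j → n i j = (1 : Matrix ι ι ℝ) i j) ∧
    ∀ i j, w.wa j < w.wa i → n i j ≠ 0 → w.slope i j ∈ J := by
  refine ⟨fun h => ⟨fun i j => h.apply_of_le, fun i j => h.slope_mem⟩, fun h i j hij => ?_⟩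
  have hlt : w.wa j < w.wa i := by
    by_contra hc
    exact hij (by rw [Matrix.sub_apply, h.1 i j (not_lt.1 hc), sub_self])
  exact ⟨hlt, h.2 i j hlt (by rwa [Matrix.sub_apply, one_apply_of_lt hlt, sub_zero] at hij)⟩

omit [Fintype ι] in
theorem Nil.inter (h : w.Nil J n) (h' : w.Nil J' n) : w.Nil (J ∩ J') n :=
  fun i j hij => ⟨(h i j hij).1, (h i j hij).2, (h' i j hij).2⟩

omit [Fintype ι] in
theorem Nil.eq_one_of_empty (h : w.Nil ∅ n) : n = 1 := by
  ext i j
  by_contra hij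
  exact (h i j (by rwa [Matrix.sub_apply, sub_ne_zero])).2

theorem Nil.mul (hJ : J.OrdConnected) (h : w.Nil J n) (h' : w.Nil J n') : w.Nil J (n * n') := by
  have e : n * n' - 1 = (n - 1) + (n' - 1) + (n - 1) * (n' - 1) := by noncomm_ring
  unfold Nil
  rw [e]
  exact (Str.add h h').add (Str.mul hJ h h')

theorem Nil.mul_geom (h : w.Nil J n) :
    n * ∑ k ∈ Finset.range (Fintype.card ι), (1 - n) ^ k = 1 := by
  have h0 : (1 - n) ^ Fintype.card ι = 0 := by
    have := (Str.neg h).pow_card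
    rwa [neg_sub] at this
  have := mul_neg_geom_sum (1 - n) (Fintype.card ι)
  rwa [h0, sub_zero, sub_sub_cancel] at this

theorem Nil.inv_eq (h : w.Nil J n) : n⁻¹ = ∑ k ∈ Finset.range (Fintype.card ι), (1 - n) ^ k :=
  Matrix.inv_eq_right_inv h.mul_geom

theorem Nil.isUnit_det (h : w.Nil J n) : IsUnit n.det :=
  Matrix.isUnit_det_of_right_inverse h.mul_geom

theorem Nil.mul_inv (h : w.Nil J n) : n * n⁻¹ = 1 := Matrix.mul_nonsing_inv _ h.isUnit_det

theorem Nil.inv_mul (h : w.Nil J n) : n⁻¹ * n = 1 := Matrix.nonsing_inv_mul _ h.isUnit_det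

theorem Nil.inv_inv (h : w.Nil J n) : n⁻¹⁻¹ = n := Matrix.nonsing_inv_nonsing_inv _ h.isUnit_det

theorem Nil.inv (hJ : J.OrdConnected) (h : w.Nil J n) : w.Nil J n⁻¹ := by
  have hs : w.Str J (1 - n) := by
    have := Str.neg h
    rwa [neg_sub] at this
  have e : n⁻¹ - 1 = ∑ k ∈ Finset.range (Fintype.card ι), (1 - n) ^ (k + 1) := by
    have h0 : (1 - n) ^ Fintype.card ι = 0 := hs.pow_card
    have := Finset.sum_range_succ' (fun k => (1 - n) ^ k) (Fintype.card ι)
    rw [Finset.sum_range_succ, h0, add_zero, pow_zero] at this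
    rw [h.inv_eq, this, add_sub_cancel_right]
  unfold Nil
  rw [e]
  exact Str.sum fun k _ => hs.pow_succ hJ k

theorem Nil.pow (hJ : J.OrdConnected) (h : w.Nil J n) (k : ℕ) : w.Nil J (n ^ k) := by
  induction k with
  | zero => simpa using Nil.one
  | succ k ih => rw [_root_.pow_succ]; exact ih.mul hJ h

theorem Nil.conj (h : w.Nil J n) (hl : w.Lev l) (hl' : w.Lev l') (e : l * l' = 1) :
    w.Nil J (l * n * l') := by
  have e1 : l * n * l' - 1 = l * (n - 1) * l' := by
    rw [mul_sub, sub_mul, mul_one, e]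
  unfold Nil
  rw [e1]
  exact (Str.lev_mul h hl).mul_lev hl'

theorem Nil.conj_inv (h : w.Nil J n) (hl : w.Lev l) (hu : IsUnit l.det) : w.Nil J (l * n * l⁻¹) :=
  h.conj hl hl.inv (Matrix.mul_nonsing_inv _ hu)

theorem Nil.inv_conj (h : w.Nil J n) (hl : w.Lev l) (hu : IsUnit l.det) : w.Nil J (l⁻¹ * n * l) :=
  h.conj hl.inv hl (Matrix.nonsing_inv_mul _ hu)

theorem nil_conj_iff (hl : w.Lev l) (hu : IsUnit l.det) : w.Nil J (l * n * l⁻¹) ↔ w.Nil J n := by
  refine ⟨fun h => ?_, fun h => h.conj_inv hl hu⟩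
  have := h.inv_conj hl hu
  rwa [← mul_assoc, ← mul_assoc, Matrix.nonsing_inv_mul _ hu, one_mul, mul_assoc,
    Matrix.nonsing_inv_mul _ hu, mul_one] at this

end Nil

section Dec

omit [Fintype ι] [DecidableEq ι] in
theorem lev_apply (T : Matrix ι ι ℝ) (i j : ι) :
    w.lev T i j = if w.wa i = w.wa j then T i j else 0 := rfl

omit [Fintype ι] [DecidableEq ι] in
theorem lev_lev (T : Matrix ι ι ℝ) : w.Lev (w.lev T) := by
  intro i j hij
  by_contra hne
  exact hij (by rw [lev_apply, if_neg hne])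

omit [Fintype ι] [DecidableEq ι] in
theorem Lev.lev_eq (h : w.Lev l) : w.lev l = l := by
  ext i j
  rw [lev_apply]
  split_ifs with hij
  · rfl
  · by_contra h0
    exact hij (h i j (Ne.symm h0))

omit [Fintype ι] in
theorem Nil.lev_eq (h : w.Nil J n) : w.lev n = 1 := by
  ext i j
  rw [lev_apply]
  split_ifs with hij
  · exact h.apply_of_le hij.le
  · exact (Matrix.one_apply_ne fun e => hij (by rw [e])).symm

omit [DecidableEq ι] in
theorem Tri.lev_mul (h : w.Tri T) (h' : w.Tri T') : w.lev (T * T') = w.lev T * w.lev T' := by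
  ext i j
  rw [lev_apply, Matrix.mul_apply, Matrix.mul_apply]
  split_ifs with hij
  · refine Finset.sum_congr rfl fun k _ => ?_
    rw [lev_apply, lev_apply]
    by_cases hk : w.wa i = w.wa k
    · rw [if_pos hk, if_pos (hk.symm.trans hij)]
    · rw [if_neg hk, zero_mul]
      rcases lt_or_gt_of_ne hk with hlt | hlt
      · rw [h.eq_zero hlt, zero_mul]
      · rw [h'.eq_zero (hij ▸ hlt), mul_zero]
  · symm
    refine Finset.sum_eq_zero fun k _ => ?_
    rw [lev_apply, lev_apply]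
    by_cases hk : w.wa i = w.wa k
    · rw [if_neg (fun e : w.wa k = w.wa j => hij (hk.trans e)), mul_zero]
    · rw [if_neg hk, zero_mul]

omit [Fintype ι] in
theorem nil_univ_iff : w.Nil univ n ↔ w.Tri n ∧ w.lev n = 1 := by
  refine ⟨fun h => ⟨h.tri, h.lev_eq⟩, fun h => nil_iff.2 ⟨fun i j hij => ?_, fun _ _ _ _ => trivial⟩⟩
  rcases hij.lt_or_eq with hlt | he
  · rw [h.1.eq_zero hlt, one_apply_of_lt' hlt]
  · rw [← h.2, lev_apply, if_pos he]
where
  one_apply_of_lt' {i j : ι} (hij : w.wa i < w.wa j) : (1 : Matrix ι ι ℝ) i j = 0 :=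
    Matrix.one_apply_ne fun h => hij.ne (by rw [h])

theorem Tri.lev_mul_lev_inv (h : w.Tri T) (hu : IsUnit T.det) : w.lev T * w.lev T⁻¹ = 1 := by
  rw [← h.lev_mul h.inv, Matrix.mul_nonsing_inv _ hu, Lev.one.lev_eq]

theorem Tri.isUnit_lev (h : w.Tri T) (hu : IsUnit T.det) : IsUnit (w.lev T).det :=
  Matrix.isUnit_det_of_right_inverse (h.lev_mul_lev_inv hu)

theorem Tri.lev_inv (h : w.Tri T) (hu : IsUnit T.det) : w.lev T⁻¹ = (w.lev T)⁻¹ :=
  (Matrix.inv_eq_right_inv (h.lev_mul_lev_inv hu)).symm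

theorem Tri.nil_mul_lev (h : w.Tri T) (hu : IsUnit T.det) : w.nil T * w.lev T = T := by
  rw [nil, mul_assoc, Matrix.nonsing_inv_mul _ (h.isUnit_lev hu), mul_one]

theorem Tri.nil_nil (h : w.Tri T) (hu : IsUnit T.det) : w.Nil univ (w.nil T) := by
  have hl := (lev_lev (w := w) T).inv
  refine nil_univ_iff.2 ⟨h.mul hl.tri, ?_⟩
  rw [nil, h.lev_mul hl.tri, hl.lev_eq, Matrix.mul_nonsing_inv _ (h.isUnit_lev hu)]

theorem Nil.nil_eq (h : w.Nil J n) : w.nil n = n := by
  rw [nil, h.lev_eq, inv_one, mul_one]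

theorem Lev.nil_eq (h : w.Lev l) (hu : IsUnit l.det) : w.nil l = 1 := by
  rw [nil, h.lev_eq, Matrix.mul_nonsing_inv _ hu]

theorem Nil.lev_mul_lev (h : w.Nil J n) (hl : w.Lev l) : w.lev (n * l) = l := by
  rw [h.tri.lev_mul hl.tri, h.lev_eq, one_mul, hl.lev_eq]

theorem Nil.nil_mul_lev (h : w.Nil J n) (hl : w.Lev l) (hu : IsUnit l.det) : w.nil (n * l) = n := by
  rw [nil, h.lev_mul_lev hl, mul_assoc, Matrix.mul_nonsing_inv _ hu, mul_one]

theorem Tri.lev_of_nil_eq_one (h : w.Tri T) (hu : IsUnit T.det) (e : w.nil T = 1) : w.Lev T := by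
  have := h.nil_mul_lev hu
  rw [e, one_mul] at this
  rw [← this]
  exact lev_lev T

/-- The cocycle formula for the unipotent parts. -/
theorem Tri.nil_mul (h : w.Tri T) (h' : w.Tri T') (hu : IsUnit T.det) :
    w.nil (T * T') = w.nil T * (w.lev T * w.nil T' * (w.lev T)⁻¹) := by
  have hl := h.isUnit_lev hu
  rw [nil, nil, nil, h.lev_mul h', Matrix.mul_inv_rev]
  simp only [mul_assoc]
  rw [← mul_assoc (w.lev T)⁻¹, Matrix.nonsing_inv_mul _ hl, one_mul]

theorem Tri.nil_inv (h : w.Tri T) (hu : IsUnit T.det) :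
    w.nil T⁻¹ = (w.lev T)⁻¹ * (w.nil T)⁻¹ * w.lev T := by
  have hl := h.isUnit_lev hu
  rw [nil, nil, h.lev_inv hu, Matrix.mul_inv_rev, Matrix.nonsing_inv_nonsing_inv _ hl,
    ← mul_assoc, Matrix.nonsing_inv_mul _ hl, one_mul]

omit [DecidableEq ι] in
theorem Tri.lev_conj (h : w.Tri T) (hl : w.Lev l) (hl' : w.Lev l') :
    w.lev (l * T * l') = l * w.lev T * l' := by
  rw [(hl.tri.mul h).lev_mul hl'.tri, hl.tri.lev_mul h, hl.lev_eq, hl'.lev_eq]

theorem Tri.nil_conj (h : w.Tri T) (hl : w.Lev l) (hl' : w.Lev l') (hu : IsUnit l'.det) :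
    w.nil (l * T * l') = l * w.nil T * l⁻¹ := by
  rw [nil, nil, h.lev_conj hl hl', Matrix.mul_inv_rev, Matrix.mul_inv_rev]
  simp only [mul_assoc]
  rw [← mul_assoc l', Matrix.mul_nonsing_inv _ hu, one_mul]

end Dec

section Dil

variable (w) in
omit [Fintype ι] in
theorem dil_lev (s t : ℝ) : w.Lev (w.dil s t) := Lev.diagonal _

variable (w) in
omit [Fintype ι] in
theorem dil_zero : w.dil 0 0 = 1 := by simp [dil]

variable (w) in
theorem dil_mul (s t s' t' : ℝ) : w.dil s t * w.dil s' t' = w.dil (s + s') (t + t') := by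
  simp only [dil, Matrix.diagonal_mul_diagonal, ← Real.exp_add]
  congr 1
  funext i
  congr 1
  ring

variable (w) in
theorem dil_mul_neg (s t : ℝ) : w.dil s t * w.dil (-s) (-t) = 1 := by
  rw [dil_mul, add_neg_cancel, add_neg_cancel, dil_zero]

variable (w) in
theorem dil_neg_mul (s t : ℝ) : w.dil (-s) (-t) * w.dil s t = 1 := by
  rw [dil_mul, neg_add_cancel, neg_add_cancel, dil_zero]

variable (w) in
theorem dil_inv (s t : ℝ) : (w.dil s t)⁻¹ = w.dil (-s) (-t) :=
  Matrix.inv_eq_right_inv (w.dil_mul_neg s t)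

variable (w) in
theorem isUnit_dil (s t : ℝ) : IsUnit (w.dil s t).det :=
  Matrix.isUnit_det_of_right_inverse (w.dil_mul_neg s t)

variable (w) in
theorem dil_conj_apply (s t : ℝ) (T : Matrix ι ι ℝ) (i j : ι) :
    (w.dil s t * T * w.dil (-s) (-t)) i j =
      Real.exp (s * (w.wa i - w.wa j) + t * (w.wb i - w.wb j)) * T i j := by
  simp only [dil, Matrix.mul_diagonal, Matrix.diagonal_mul]
  rw [mul_right_comm, ← Real.exp_add]
  congr 2
  ring

theorem Lev.dil_comm (h : w.Lev l) (s t : ℝ) : w.dil s t * l = l * w.dil s t := by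
  ext i j
  simp only [dil, Matrix.mul_diagonal, Matrix.diagonal_mul]
  by_cases h0 : l i j = 0
  · simp [h0]
  · rw [h i j h0, w.hab _ _ (h i j h0), mul_comm]

theorem Nil.dil_conj (h : w.Nil J n) (s t : ℝ) : w.Nil J (w.dil s t * n * w.dil (-s) (-t)) :=
  h.conj (w.dil_lev _ _) (w.dil_lev _ _) (w.dil_mul_neg s t)

end Dil

end Wt

end Pool.Agent.P.MP_d483fb_an.Z
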