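import Pool.Agent.P.MP_d483fb_an.Z.Grp.Pr

/-!
Polynomial maps of matrices, and the factorisation `n = facL U n * facR U n` of a unipotent matrix
along a cut `U` of the slopes.
-/

open scoped Matrix Matrix.Norms.Operator Topology
open Set Filter

noncomputable section

set_option linter.unusedSectionVars false

namespace Pool.Agent.P.MP_d483fb_an.Z

section Poly

variable {ι κ κ' : Type} [Fintype κ] [DecidableEq κ] [Fintype κ'] [DecidableEq κ']

/-- Evaluation of a polynomial at the entries of a matrix. -/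
abbrev evM (n : Matrix ι ι ℝ) : MvPolynomial (ι × ι) ℝ →+* ℝ :=
  MvPolynomial.eval fun k => n k.1 k.2

/-- Polynomial functions of the entries of a matrix. -/
def PolyF (f : Matrix ι ι ℝ → ℝ) : Prop := ∃ P : MvPolynomial (ι × ι) ℝ, ∀ n, f n = evM n P

/-- Maps whose entries are polynomials in the entries. -/
def PolyM (F : Matrix ι ι ℝ → Matrix κ κ ℝ) : Prop :=
  ∃ P : Matrix κ κ (MvPolynomial (ι × ι) ℝ), ∀ n i j, F n i j = evM n (P i j)

variable {f g : Matrix ι ι ℝ → ℝ} {F G : Matrix ι ι ℝ → Matrix κ κ ℝ}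

theorem polyM_iff : PolyM F ↔ ∀ i j, PolyF fun n => F n i j := by
  constructor
  · rintro ⟨P, hP⟩ i j
    exact ⟨P i j, fun n => hP n i j⟩
  · intro h
    choose P hP using h
    exact ⟨Matrix.of P, fun n i j => hP i j n⟩

theorem PolyM.entry (h : PolyM F) (i j : κ) : PolyF fun n => F n i j := polyM_iff.1 h i j

theorem PolyF.const (c : ℝ) : PolyF fun _ : Matrix ι ι ℝ => c :=
  ⟨MvPolynomial.C c, fun _ => by simp⟩

theorem PolyF.coord (i j : ι) : PolyF fun n : Matrix ι ι ℝ => n i j :=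
  ⟨MvPolynomial.X (i, j), fun _ => by simp⟩

theorem PolyF.add (hf : PolyF f) (hg : PolyF g) : PolyF fun n => f n + g n := by
  obtain ⟨P, hP⟩ := hf
  obtain ⟨Q, hQ⟩ := hg
  exact ⟨P + Q, fun n => by rw [map_add, ← hP, ← hQ]⟩

theorem PolyF.mul (hf : PolyF f) (hg : PolyF g) : PolyF fun n => f n * g n := by
  obtain ⟨P, hP⟩ := hf
  obtain ⟨Q, hQ⟩ := hg
  exact ⟨P * Q, fun n => by rw [map_mul, ← hP, ← hQ]⟩

theorem PolyF.neg (hf : PolyF f) : PolyF fun n => -f n := by
  obtain ⟨P, hP⟩ := hf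
  exact ⟨-P, fun n => by rw [map_neg, ← hP]⟩

theorem PolyF.sub (hf : PolyF f) (hg : PolyF g) : PolyF fun n => f n - g n := by
  simpa only [sub_eq_add_neg] using hf.add hg.neg

theorem PolyF.sum {α : Type*} {s : Finset α} {f : α → Matrix ι ι ℝ → ℝ}
    (h : ∀ a ∈ s, PolyF (f a)) : PolyF fun n => ∑ a ∈ s, f a n := by
  classical
  induction s using Finset.induction_on with
  | empty => simpa using PolyF.const 0
  | insert a s ha ih =>
    simp only [Finset.sum_insert ha]
    exact (h a (Finset.mem_insert_self _ _)).add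
      (ih fun b hb => h b (Finset.mem_insert_of_mem hb))

theorem PolyF.comp {g : Matrix κ κ ℝ → ℝ} (hg : PolyF g) (hF : PolyM F) :
    PolyF fun n => g (F n) := by
  obtain ⟨Q, hQ⟩ := hg
  obtain ⟨P, hP⟩ := hF
  refine ⟨MvPolynomial.bind₁ (fun k => P k.1 k.2) Q, fun n => ?_⟩
  beta_reduce
  rw [hQ]
  simp only [evM, ← MvPolynomial.coe_aeval_eq_eval, RingHom.coe_coe, MvPolynomial.aeval_bind₁]
  congr 2
  funext k
  exact hP n k.1 k.2

theorem PolyF.continuous (hf : PolyF f) : Continuous f := by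
  obtain ⟨P, hP⟩ := hf
  rw [show f = fun n => evM n P from funext hP]
  exact (MvPolynomial.continuous_eval P).comp
    (continuous_pi fun k => continuous_id.matrix_elem k.1 k.2)

theorem PolyM.continuous (hF : PolyM F) : Continuous F :=
  continuous_matrix fun i j => (hF.entry i j).continuous

theorem PolyM.measurable [Finite ι] (hF : PolyM F) : Measurable F := hF.continuous.measurable

theorem PolyM.const (c : Matrix κ κ ℝ) : PolyM fun _ : Matrix ι ι ℝ => c :=
  polyM_iff.2 fun i j => PolyF.const (c i j)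

theorem PolyM.id : PolyM fun n : Matrix κ κ ℝ => n := polyM_iff.2 PolyF.coord

theorem PolyM.comp {G : Matrix κ κ ℝ → Matrix κ' κ' ℝ} (hG : PolyM G) (hF : PolyM F) :
    PolyM fun n => G (F n) :=
  polyM_iff.2 fun i j => (hG.entry i j).comp hF

theorem PolyM.add (hF : PolyM F) (hG : PolyM G) : PolyM fun n => F n + G n :=
  polyM_iff.2 fun i j => (hF.entry i j).add (hG.entry i j)

theorem PolyM.sub (hF : PolyM F) (hG : PolyM G) : PolyM fun n => F n - G n :=
  polyM_iff.2 fun i j => (hF.entry i j).sub (hG.entry i j)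

theorem PolyM.mul (hF : PolyM F) (hG : PolyM G) : PolyM fun n => F n * G n :=
  polyM_iff.2 fun i j => by
    simp only [Matrix.mul_apply]
    exact PolyF.sum fun k _ => (hF.entry i k).mul (hG.entry k j)

theorem PolyM.pow (hF : PolyM F) (m : ℕ) : PolyM fun n => F n ^ m := by
  induction m with
  | zero => simpa using PolyM.const 1
  | succ m ih => simpa only [pow_succ] using ih.mul hF

theorem PolyM.sum {α : Type*} {s : Finset α} {F : α → Matrix ι ι ℝ → Matrix κ κ ℝ}
    (h : ∀ a ∈ s, PolyM (F a)) : PolyM fun n => ∑ a ∈ s, F a n :=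
  polyM_iff.2 fun i j => by
    simp only [Matrix.sum_apply]
    exact PolyF.sum fun a ha => (h a ha).entry i j

/-- The inverse of a unipotent matrix, as a polynomial. -/
def ginv (n : Matrix κ κ ℝ) : Matrix κ κ ℝ := ∑ k ∈ Finset.range (Fintype.card κ), (1 - n) ^ k

theorem PolyM.ginv (hF : PolyM F) : PolyM fun n => ginv (F n) :=
  PolyM.sum fun k _ => ((PolyM.const 1).sub hF).pow k

end Poly

namespace Wt

variable {ι : Type} [Fintype ι] [DecidableEq ι] {w : Wt ι} {J U : Set ℝ} {χ : ℝ}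
  {n n' l l' p q : Matrix ι ι ℝ}

theorem Nil.ginv_eq (hn : w.Nil J n) : ginv n = n⁻¹ := hn.inv_eq.symm

theorem polyM_pr : PolyM (w.pr χ) :=
  polyM_iff.2 fun i j => by
    simp only [pr_apply]
    split_ifs
    · exact PolyF.const 0
    · exact PolyF.coord i j

variable (w) in
/-- A polynomial map which agrees with `al χ` on unipotent matrices. -/
def alP (χ : ℝ) (n : Matrix ι ι ℝ) : Matrix ι ι ℝ := n * ginv (w.pr χ n)

theorem polyM_alP : PolyM (w.alP χ) := PolyM.id.mul polyM_pr.ginv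

theorem Nil.alP_eq (hn : w.Nil J n) : w.alP χ n = w.al χ n := by
  rw [alP, hn.pr.ginv_eq, Wt.al]

theorem continuousOn_al : ContinuousOn (w.al χ) {n | w.Nil univ n} :=
  polyM_alP.continuous.continuousOn.congr fun _ hn => (Nil.alP_eq hn).symm

/-- A cut of the real line. -/
def Cut (U : Set ℝ) : Prop := IsUpperSet U ∨ IsLowerSet U

theorem Cut.compl (h : Cut U) : Cut Uᶜ := h.symm.imp IsLowerSet.compl IsUpperSet.compl

theorem Cut.ordConnected (h : Cut U) : U.OrdConnected :=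
  h.elim IsUpperSet.ordConnected IsLowerSet.ordConnected

theorem cut_Ici (β : ℝ) : Cut (Ici β) := Or.inl (isUpperSet_Ici β)

theorem cut_Ioi (β : ℝ) : Cut (Ioi β) := Or.inl (isUpperSet_Ioi β)

theorem cut_Iic (β : ℝ) : Cut (Iic β) := Or.inr (isLowerSet_Iic β)

theorem cut_Iio (β : ℝ) : Cut (Iio β) := Or.inr (isLowerSet_Iio β)

variable (w) in
/-- The properties of the two factors on `Nil V`. -/
def IsFac (V U : Set ℝ) (P Q : Matrix ι ι ℝ → Matrix ι ι ℝ) : Prop :=
  PolyM P ∧ PolyM Q ∧ ∀ n, w.Nil V n → P n * Q n = n ∧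
    (∀ J : Set ℝ, J.OrdConnected → w.Nil J n → w.Nil (J ∩ U) (P n) ∧ w.Nil (J \ U) (Q n)) ∧
    ∀ S, w.DilClosed S → n ∈ S → P n ∈ S ∧ Q n ∈ S

variable (w) in
theorem exists_isFac_aux {ε : ℝ} (hε : ε = 1 ∨ ε = -1) (hU : Cut U)
    (hUε : ∀ x ∈ U, ∀ y, 0 ≤ ε * (y - x) → y ∈ U) (m : ℕ) :
    ∀ V : Set ℝ, (∀ x ∈ V, ∀ y, 0 ≤ ε * (y - x) → y ∈ V) →
      {p : ι × ι | w.slope p.1 p.2 ∈ V \ U}.ncard ≤ m → ∃ P Q, w.IsFac V U P Q := by
  have base : ∀ V : Set ℝ, {p : ι × ι | w.slope p.1 p.2 ∈ V \ U} = ∅ → ∃ P Q, w.IsFac V U P Q := by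
    intro V hV
    refine ⟨fun n => n, fun _ => 1, PolyM.id, PolyM.const 1, fun n hn => ⟨mul_one n, ?_, ?_⟩⟩
    · refine fun J _ hJ => ⟨hJ.inter fun i j h => ⟨(hn i j h).1, ?_⟩, Nil.one⟩
      by_contra h1
      have : (i, j) ∈ {p : ι × ι | w.slope p.1 p.2 ∈ V \ U} := ⟨(hn i j h).2, h1⟩
      rw [hV] at this
      exact this
    · refine fun S hS hnS => ⟨hnS, ?_⟩
      rw [← hn.mul_inv]
      exact hS.mul _ hnS _ (hS.inv _ hnS hn.univ)
  induction m with
  | zero =>
    intro V _ hc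
    exact base V ((ncard_eq_zero (toFinite _)).1 (Nat.le_zero.1 hc))
  | succ m ih =>
    intro V hV hc
    rcases {p : ι × ι | w.slope p.1 p.2 ∈ V \ U}.eq_empty_or_nonempty with h0 | h0
    · exact base V h0
    obtain ⟨p0, hp0, hmin⟩ := exists_min_image _ (fun p : ι × ι => ε * w.slope p.1 p.2)
      (toFinite _) h0
    set χ := w.slope p0.1 p0.2 with hχ
    have hε2 : ε * ε = 1 := by rcases hε with rfl | rfl <;> norm_num
    have hε0 : ε ≠ 0 := by rcases hε with rfl | rfl <;> norm_num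
    set W : Set ℝ := {y | 0 ≤ ε * (y - χ)} with hW
    have hWe : Extreme W χ := by
      rcases hε with rfl | rfl
      · exact Or.inl fun σ hσ => by simp only [hW, mem_ofPred_eq] at hσ; linarith
      · exact Or.inr fun σ hσ => by simp only [hW, mem_ofPred_eq] at hσ; linarith
    have hWo : W.OrdConnected := by
      refine ⟨fun x hx y hy z hz => ?_⟩
      simp only [hW, mem_ofPred_eq] at hx hy ⊢
      rcases hε with rfl | rfl <;> linarith [hz.1, hz.2]
    have hVW : ∀ n, w.Nil V n → w.Nil W n := by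
      refine fun n hn i j h => ⟨(hn i j h).1, ?_⟩
      simp only [hW, mem_ofPred_eq]
      by_cases h1 : w.slope i j ∈ U
      · by_contra h2
        exact hp0.2 (hUε _ h1 χ (by linarith))
      · have := hmin (i, j) ⟨(hn i j h).2, h1⟩
        simp only at this
        linarith
    obtain ⟨P, Q, hP, hQ, hPQ⟩ := ih (W \ {χ}) (by
      rintro x ⟨hx, hx'⟩ y hy
      simp only [hW, mem_ofPred_eq] at hx
      have h1 : 0 < ε * (x - χ) := hx.lt_of_ne' (mul_ne_zero hε0 (sub_ne_zero.2 hx'))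
      refine ⟨by simp only [hW, mem_ofPred_eq]; linarith, fun e => ?_⟩
      have e' : y = χ := e
      rw [e'] at hy
      linarith) (by
      refine Nat.le_of_lt_succ (lt_of_lt_of_le (ncard_lt_ncard ⟨?_, fun h => ?_⟩ (toFinite _)) hc)
      · rintro p ⟨hp, hp'⟩
        exact ⟨hV χ hp0.1 _ hp.1, hp'⟩
      · exact (h hp0).1.2 rfl)
    refine ⟨fun n => P (w.alP χ n), fun n => Q (w.alP χ n) * w.pr χ n, hP.comp polyM_alP,
      (hQ.comp polyM_alP).mul polyM_pr, fun n hn => ?_⟩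
    have hn' := hVW n hn
    obtain ⟨h1, h2, h3⟩ := hPQ _ (hn'.al hWe hWo)
    simp only [hn.alP_eq]
    refine ⟨by rw [← mul_assoc, h1, hn.al_mul_pr], fun J hJ hJn => ?_, fun S hS hnS => ?_⟩
    · obtain ⟨h4, h5⟩ := h2 J hJ (hJn.al_same hJ)
      refine ⟨h4, Nil.mul (hJ.inter hU.compl.ordConnected) h5 (hJn.pr_inter.mono ?_)⟩
      rintro σ ⟨h6, h7⟩
      have h8 : σ = χ := h7
      exact ⟨h6, h8 ▸ hp0.2⟩
    · obtain ⟨h4, h5⟩ := h3 S hS (hS.al_mem hWe hn' hnS)
      exact ⟨h4, hS.mul _ h5 _ (hS.pr_mem hWe hn' hnS)⟩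

variable (w) in
theorem exists_isFac (U : Set ℝ) : ∃ PQ : (Matrix ι ι ℝ → Matrix ι ι ℝ) × (Matrix ι ι ℝ → Matrix ι ι ℝ),
    Cut U → w.IsFac univ U PQ.1 PQ.2 := by
  by_cases hU : Cut U
  · have : ∃ P Q, w.IsFac univ U P Q := by
      rcases id hU with h | h
      · exact w.exists_isFac_aux (Or.inl rfl) hU (fun x hx y hy => h (by linarith) hx) _ _
          (fun _ _ _ _ => trivial) le_rfl
      · exact w.exists_isFac_aux (Or.inr rfl) hU (fun x hx y hy => h (by linarith) hx) _ _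
          (fun _ _ _ _ => trivial) le_rfl
    obtain ⟨P, Q, h⟩ := this
    exact ⟨(P, Q), fun _ => h⟩
  · exact ⟨(id, id), fun h => absurd h hU⟩

variable (w) in
/-- The left factor, with slopes in `U`. -/
def facL (U : Set ℝ) : Matrix ι ι ℝ → Matrix ι ι ℝ := (w.exists_isFac U).choose.1

variable (w) in
/-- The right factor, with slopes outside `U`. -/
def facR (U : Set ℝ) : Matrix ι ι ℝ → Matrix ι ι ℝ := (w.exists_isFac U).choose.2

theorem isFac (hU : Cut U) : w.IsFac univ U (w.facL U) (w.facR U) :=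
  (w.exists_isFac U).choose_spec hU

theorem polyM_facL (hU : Cut U) : PolyM (w.facL U) := (isFac hU).1

theorem polyM_facR (hU : Cut U) : PolyM (w.facR U) := (isFac hU).2.1

theorem continuous_facL (hU : Cut U) : Continuous (w.facL U) := (polyM_facL hU).continuous

theorem continuous_facR (hU : Cut U) : Continuous (w.facR U) := (polyM_facR hU).continuous

theorem measurable_facL (hU : Cut U) : Measurable (w.facL U) := (polyM_facL hU).measurable

theorem measurable_facR (hU : Cut U) : Measurable (w.facR U) := (polyM_facR hU).measurable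

theorem Nil.facL_mul_facR (hU : Cut U) (hn : w.Nil J n) : w.facL U n * w.facR U n = n :=
  ((isFac hU).2.2 n hn.univ).1

theorem Nil.facL_inter (hU : Cut U) (hJ : J.OrdConnected) (hn : w.Nil J n) :
    w.Nil (J ∩ U) (w.facL U n) :=
  (((isFac hU).2.2 n hn.univ).2.1 J hJ hn).1

theorem Nil.facR_diff (hU : Cut U) (hJ : J.OrdConnected) (hn : w.Nil J n) :
    w.Nil (J \ U) (w.facR U n) :=
  (((isFac hU).2.2 n hn.univ).2.1 J hJ hn).2

theorem Nil.facL (hU : Cut U) (hn : w.Nil J n) : w.Nil U (w.facL U n) :=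
  (hn.univ.facL_inter hU ordConnected_univ).mono inter_subset_right

theorem Nil.facR (hU : Cut U) (hn : w.Nil J n) : w.Nil Uᶜ (w.facR U n) :=
  (hn.univ.facR_diff hU ordConnected_univ).mono fun _ h => h.2

theorem DilClosed.facL_mem {S : Set (Matrix ι ι ℝ)} (hS : w.DilClosed S) (hU : Cut U)
    (hn : w.Nil J n) (hnS : n ∈ S) : w.facL U n ∈ S :=
  (((isFac hU).2.2 n hn.univ).2.2 S hS hnS).1

theorem DilClosed.facR_mem {S : Set (Matrix ι ι ℝ)} (hS : w.DilClosed S) (hU : Cut U)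
    (hn : w.Nil J n) (hnS : n ∈ S) : w.facR U n ∈ S :=
  (((isFac hU).2.2 n hn.univ).2.2 S hS hnS).2

/-- Uniqueness of the factorisation. -/
theorem fac_unique {p' q' : Matrix ι ι ℝ} (hU : Cut U) (hp : w.Nil U p) (hq : w.Nil Uᶜ q)
    (hp' : w.Nil U p') (hq' : w.Nil Uᶜ q') (e : p * q = p' * q') : p = p' ∧ q = q' := by
  have h1 : p'⁻¹ * p = q' * q⁻¹ := by
    calc p'⁻¹ * p = p'⁻¹ * (p * q) * q⁻¹ := by rw [mul_assoc, mul_assoc, hq.mul_inv, mul_one]
      _ = q' * q⁻¹ := by rw [e, ← mul_assoc, hp'.inv_mul, one_mul]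
  have h2 : w.Nil U (p'⁻¹ * p) := Nil.mul hU.ordConnected (hp'.inv hU.ordConnected) hp
  have h3 : w.Nil Uᶜ (p'⁻¹ * p) :=
    h1 ▸ Nil.mul hU.compl.ordConnected hq' (hq.inv hU.compl.ordConnected)
  have h4 : p'⁻¹ * p = 1 := ((h2.inter h3).mono (inter_compl_self U).subset).eq_one_of_empty
  have h5 : p = p' := by rw [← one_mul p, ← hp'.mul_inv, mul_assoc, h4, mul_one]
  refine ⟨h5, ?_⟩
  rw [← one_mul q, ← hp.inv_mul, mul_assoc, e, ← h5, ← mul_assoc, hp.inv_mul, one_mul]

theorem facL_mul (hU : Cut U) (hp : w.Nil U p) (hq : w.Nil Uᶜ q) : w.facL U (p * q) = p := by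
  have hn := Nil.mul ordConnected_univ hp.univ hq.univ
  exact (fac_unique hU (hn.facL hU) (hn.facR hU) hp hq (hn.facL_mul_facR hU)).1

theorem facR_mul (hU : Cut U) (hp : w.Nil U p) (hq : w.Nil Uᶜ q) : w.facR U (p * q) = q := by
  have hn := Nil.mul ordConnected_univ hp.univ hq.univ
  exact (fac_unique hU (hn.facL hU) (hn.facR hU) hp hq (hn.facL_mul_facR hU)).2

theorem Nil.facL_eq_self (hU : Cut U) (hp : w.Nil U p) : w.facL U p = p := by
  simpa using facL_mul hU hp Nil.one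

theorem Nil.facR_eq_one (hU : Cut U) (hp : w.Nil U p) : w.facR U p = 1 := by
  simpa using facR_mul hU hp Nil.one

theorem Nil.facL_eq_one (hU : Cut U) (hq : w.Nil Uᶜ q) : w.facL U q = 1 := by
  simpa using facL_mul hU Nil.one hq

theorem Nil.facR_eq_self (hU : Cut U) (hq : w.Nil Uᶜ q) : w.facR U q = q := by
  simpa using facR_mul hU Nil.one hq

theorem facL_left_mul (hU : Cut U) (hp : w.Nil U p) (hn : w.Nil J n) :
    w.facL U (p * n) = p * w.facL U n := by
  conv_lhs => rw [← hn.facL_mul_facR hU, ← mul_assoc]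
  exact facL_mul hU (Nil.mul hU.ordConnected hp (hn.facL hU)) (hn.facR hU)

theorem facR_left_mul (hU : Cut U) (hp : w.Nil U p) (hn : w.Nil J n) :
    w.facR U (p * n) = w.facR U n := by
  conv_lhs => rw [← hn.facL_mul_facR hU, ← mul_assoc]
  exact facR_mul hU (Nil.mul hU.ordConnected hp (hn.facL hU)) (hn.facR hU)

theorem facL_mul_right (hU : Cut U) (hn : w.Nil J n) (hq : w.Nil Uᶜ q) :
    w.facL U (n * q) = w.facL U n := by
  conv_lhs => rw [← hn.facL_mul_facR hU, mul_assoc]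
  exact facL_mul hU (hn.facL hU) (Nil.mul hU.compl.ordConnected (hn.facR hU) hq)

theorem facR_mul_right (hU : Cut U) (hn : w.Nil J n) (hq : w.Nil Uᶜ q) :
    w.facR U (n * q) = w.facR U n * q := by
  conv_lhs => rw [← hn.facL_mul_facR hU, mul_assoc]
  exact facR_mul hU (hn.facL hU) (Nil.mul hU.compl.ordConnected (hn.facR hU) hq)

theorem fac_conj (hU : Cut U) (hn : w.Nil J n) (hl : w.Lev l) (hl' : w.Lev l') (e : l * l' = 1) :
    w.facL U (l * n * l') = l * w.facL U n * l' ∧ w.facR U (l * n * l') = l * w.facR U n * l' := by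
  have e' : l' * l = 1 := mul_eq_one_comm.1 e
  have h1 : l * n * l' = (l * w.facL U n * l') * (l * w.facR U n * l') := by
    conv_lhs => rw [← hn.facL_mul_facR hU]
    simp only [mul_assoc]
    rw [← mul_assoc l' l, e', one_mul]
  rw [h1]
  exact ⟨facL_mul hU ((hn.facL hU).conj hl hl' e) ((hn.facR hU).conj hl hl' e),
    facR_mul hU ((hn.facL hU).conj hl hl' e) ((hn.facR hU).conj hl hl' e)⟩

theorem facL_conj (hU : Cut U) (hn : w.Nil J n) (hl : w.Lev l) (hu : IsUnit l.det) :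
    w.facL U (l * n * l⁻¹) = l * w.facL U n * l⁻¹ :=
  (fac_conj hU hn hl hl.inv (Matrix.mul_nonsing_inv _ hu)).1

theorem facR_conj (hU : Cut U) (hn : w.Nil J n) (hl : w.Lev l) (hu : IsUnit l.det) :
    w.facR U (l * n * l⁻¹) = l * w.facR U n * l⁻¹ :=
  (fac_conj hU hn hl hl.inv (Matrix.mul_nonsing_inv _ hu)).2

end Wt

end Pool.Agent.P.MP_d483fb_an.Z
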