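import Mathlib

/-!
Packing and covering numbers of bounded sets of real arrays (by rounding to a grid), and
unimodularity of groups of unipotent matrices.
-/

open scoped Matrix Matrix.Norms.Operator Topology ENNReal NNReal Pointwise
open MeasureTheory Set Filter

noncomputable section

namespace Pool.Agent.P.MP_d483fb_an.Z

section Grid

variable {α κ : Type*} [Fintype κ] [DecidableEq κ]

/-- The grid cell of an array. -/
def gkey (η : ℝ) (v : κ → ℝ) : κ → ℤ := fun i => ⌊v i / η⌋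

omit [Fintype κ] [DecidableEq κ] in
theorem gkey_close {η : ℝ} (hη : 0 < η) {v w : κ → ℝ} (h : gkey η v = gkey η w) (i : κ) :
    |v i - w i| < η := by
  have h1 : ⌊v i / η⌋ = ⌊w i / η⌋ := congrFun h i
  have h2 := Int.abs_sub_lt_one_of_floor_eq_floor h1
  rw [← sub_div, abs_div, abs_of_pos hη, div_lt_one hη] at h2
  exact h2

/-- The grid cells that meet the cube of radius `R`. -/
def gbox (κ : Type*) [Fintype κ] [DecidableEq κ] (η R : ℝ) : Finset (κ → ℤ) :=
  Fintype.piFinset fun _ => Finset.Icc (-(⌈R / η⌉ + 1)) ⌈R / η⌉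

theorem gkey_mem {η R : ℝ} (hη : 0 < η) {v : κ → ℝ} (h : ∀ i, |v i| ≤ R) :
    gkey η v ∈ gbox κ η R := by
  simp only [gbox, Fintype.mem_piFinset, Finset.mem_Icc, gkey]
  intro i
  obtain ⟨h1, h2⟩ := abs_le.1 (h i)
  have h3 : v i / η ≤ R / η := by gcongr
  have h4 : -(R / η) ≤ v i / η := by rw [← neg_div]; gcongr
  have h5 := Int.le_ceil (R / η)
  have h6 := Int.floor_le (v i / η)
  have h7 := Int.lt_floor_add_one (v i / η)
  constructor
  · have : ((-(⌈R / η⌉ + 1) : ℤ) : ℝ) ≤ ⌊v i / η⌋ := by push_cast; linarith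
    exact_mod_cast this
  · have : ((⌊v i / η⌋ : ℤ) : ℝ) ≤ ⌈R / η⌉ := by linarith
    exact_mod_cast this

theorem gbox_card {η R : ℝ} (hη : 0 < η) (hR : 0 ≤ R) :
    ((gbox κ η R).card : ℝ) ≤ (2 * (R / η) + 4) ^ Fintype.card κ := by
  simp only [gbox, Fintype.card_piFinset, Finset.prod_const, Finset.card_univ, Int.card_Icc]
  push_cast
  have h0 : 0 ≤ R / η := by positivity
  have h1 := Int.ceil_lt_add_one (R / η)
  have h2 : 0 ≤ ⌈R / η⌉ := Int.ceil_nonneg h0
  have h3 : (((⌈R / η⌉ + 1 - -(⌈R / η⌉ + 1)).toNat : ℤ) : ℝ) = 2 * (⌈R / η⌉ : ℝ) + 2 := by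
    rw [Int.toNat_of_nonneg (by omega)]
    push_cast
    ring
  have h4 : (((⌈R / η⌉ + 1 - -(⌈R / η⌉ + 1)).toNat : ℕ) : ℝ) ≤ 2 * (R / η) + 4 := by
    rw [Int.cast_natCast] at h3
    rw [h3]
    linarith
  exact pow_le_pow_left₀ (Nat.cast_nonneg _) h4 _

/-- Packing. -/
theorem grid_pack (x : α → κ → ℝ) {η R : ℝ} (hη : 0 < η) (hR : 0 ≤ R) (s : Finset α)
    (hb : ∀ a ∈ s, ∀ i, |x a i| ≤ R)
    (hs : ∀ a ∈ s, ∀ b ∈ s, a ≠ b → ∃ i, η ≤ |x a i - x b i|) :
    (s.card : ℝ) ≤ (2 * (R / η) + 4) ^ Fintype.card κ := by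
  refine le_trans ?_ (gbox_card hη hR)
  have : s.card ≤ (gbox κ η R).card := by
    refine Finset.card_le_card_of_injOn (fun a => gkey η (x a)) (fun a ha => gkey_mem hη (hb a ha))
      ?_
    intro a ha b hb' hab
    by_contra hne
    obtain ⟨i, hi⟩ := hs a ha b hb' hne
    exact absurd (gkey_close hη hab i) (not_lt.2 hi)
  exact_mod_cast this

/-- Covering. -/
theorem grid_cover (x : α → κ → ℝ) {η R : ℝ} (hη : 0 < η) (hR : 0 ≤ R) (S : Set α)
    (hb : ∀ a ∈ S, ∀ i, |x a i| ≤ R) :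
    ∃ s : Finset α, (s : Set α) ⊆ S ∧ (s.card : ℝ) ≤ (2 * (R / η) + 4) ^ Fintype.card κ ∧
      ∀ a ∈ S, ∃ b ∈ s, ∀ i, |x a i - x b i| < η := by
  classical
  rcases S.eq_empty_or_nonempty with rfl | ⟨a0, ha0⟩
  · exact ⟨∅, by simp, by simp only [Finset.card_empty, Nat.cast_zero]; positivity, by simp⟩
  have h1 : ∀ c : κ → ℤ, ∃ b ∈ S, (∃ a ∈ S, gkey η (x a) = c) → gkey η (x b) = c := by
    intro c
    by_cases h : ∃ a ∈ S, gkey η (x a) = c
    · obtain ⟨a, ha, hc⟩ := h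
      exact ⟨a, ha, fun _ => hc⟩
    · exact ⟨a0, ha0, fun h' => absurd h' h⟩
  choose rep hrS hrep using h1
  refine ⟨(gbox κ η R).image rep, ?_, ?_, ?_⟩
  · intro b hb'
    obtain ⟨c, -, rfl⟩ := Finset.mem_image.1 (Finset.mem_coe.1 hb')
    exact hrS c
  · refine le_trans ?_ (gbox_card hη hR)
    exact_mod_cast Finset.card_image_le
  · intro a ha
    refine ⟨rep (gkey η (x a)), Finset.mem_image_of_mem _ (gkey_mem hη (hb a ha)), ?_⟩
    exact gkey_close hη (hrep _ ⟨a, ha, rfl⟩).symm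

end Grid

section Uni

/-- A group in which the right translates `U k^j` of a set of finite positive measure are covered
by polynomially many left translates of `U` is unimodular. -/
theorem unimod_of_cover {H : Type*} [Group H] [TopologicalSpace H] [IsTopologicalGroup H]
    [LocallyCompactSpace H] [MeasurableSpace H] [BorelSpace H] (μ : Measure H) [μ.IsHaarMeasure]
    [μ.InnerRegular] (U : Set H) (hU : MeasurableSet U) (h0 : μ U ≠ 0) (hf : μ U ≠ ∞)
    (hc : ∀ k : H, ∃ C : ℝ, ∃ D : ℕ, ∀ j : ℕ, ∃ s : Finset H, (s.card : ℝ) ≤ C * (1 + j) ^ D ∧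
      ∀ u ∈ U, ∃ p ∈ s, p⁻¹ * (u * k ^ j) ∈ U) : μ.IsMulRightInvariant := by
  have hle : ∀ k : H, Measure.modularCharacter k⁻¹ ≤ 1 := by
    intro k
    obtain ⟨C, D, hC⟩ := hc k
    by_contra hlt
    push Not at hlt
    set c : ℝ≥0 := Measure.modularCharacter k⁻¹ with hcdef
    have h1 : ∀ j : ℕ, (c : ℝ) ^ j ≤ C * (1 + j) ^ D := by
      intro j
      obtain ⟨s, hs, hcov⟩ := hC j
      have h2 : Measure.map (· * (k⁻¹) ^ j) μ = (c ^ j) • μ := by
        rw [Measure.map_right_mul_eq_modularCharacterFun_smul, hcdef, ← map_pow]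
        rfl
      have h3 : (Measure.map (· * (k⁻¹) ^ j) μ) U ≤ s.card * μ U := by
        rw [Measure.map_apply (measurable_mul_const _) hU]
        have h4 : (· * (k⁻¹) ^ j) ⁻¹' U ⊆ ⋃ p ∈ s, (p⁻¹ * ·) ⁻¹' U := by
          intro y hy
          obtain ⟨p, hp, hpy⟩ := hcov _ hy
          simp only [mem_iUnion, mem_preimage]
          refine ⟨p, hp, ?_⟩
          simpa [mul_assoc] using hpy
        refine (measure_mono h4).trans ((measure_biUnion_finset_le _ _).trans ?_)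
        simp [measure_preimage_mul]
      rw [h2, Measure.smul_apply, ENNReal.smul_def, smul_eq_mul] at h3
      have h5 := (ENNReal.mul_le_mul_iff_left h0 hf).1 h3
      have h6 : ((c ^ j : ℝ≥0) : ℝ) ≤ s.card := by exact_mod_cast h5
      push_cast at h6
      exact h6.trans hs
    have hc1 : (1 : ℝ) < c := by exact_mod_cast hlt
    have h7 := (tendsto_pow_const_div_const_pow_of_one_lt D hc1).comp (tendsto_add_atTop_nat 1)
    have h8 := h7.const_mul (C * c)
    rw [mul_zero] at h8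
    obtain ⟨j, hj⟩ := (h8.eventually (gt_mem_nhds (zero_lt_one' ℝ))).exists
    have h9 := h1 j
    have hp : (0 : ℝ) < (c : ℝ) ^ j := by positivity
    simp only [Function.comp_apply] at hj
    have h10 : C * c * (((j + 1 : ℕ) : ℝ) ^ D / (c : ℝ) ^ (j + 1))
        = C * (1 + j) ^ D / (c : ℝ) ^ j := by
      push_cast
      field_simp
      ring
    rw [h10, div_lt_one hp] at hj
    linarith
  refine ⟨fun k => ?_⟩
  have h1 : Measure.modularCharacter k = 1 := by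
    have h2 := hle k
    have h3 := hle k⁻¹
    rw [inv_inv] at h3
    have h4 : Measure.modularCharacter k * Measure.modularCharacter k⁻¹ = 1 := by
      rw [← map_mul, mul_inv_cancel, map_one]
    refine le_antisymm h3 ?_
    calc (1 : ℝ≥0) = Measure.modularCharacter k * Measure.modularCharacter k⁻¹ := h4.symm
      _ ≤ Measure.modularCharacter k * 1 := by gcongr
      _ = _ := mul_one _
  rw [Measure.map_right_mul_eq_modularCharacterFun_smul]
  have : Measure.modularCharacterFun k = 1 := h1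
  rw [this, one_smul]

variable {ι : Type} [Fintype ι] [DecidableEq ι]

theorem abs_entry_le_norm (A : Matrix ι ι ℝ) (i j : ι) : |A i j| ≤ ‖A‖ := by
  have h1 : ‖A i j‖₊ ≤ ‖A‖₊ := by
    rw [Matrix.linfty_opNNNorm_def]
    refine le_trans ?_ (Finset.le_sup (f := fun i => ∑ j, ‖A i j‖₊) (Finset.mem_univ i))
    exact Finset.single_le_sum (f := fun j => ‖A i j‖₊) (fun _ _ => zero_le) (Finset.mem_univ j)
  exact_mod_cast h1

theorem norm_le_card_mul (A : Matrix ι ι ℝ) {c : ℝ} (hc : 0 ≤ c) (h : ∀ i j, |A i j| ≤ c) :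
    ‖A‖ ≤ Fintype.card ι * c := by
  lift c to ℝ≥0 using hc
  have h1 : ‖A‖₊ ≤ Fintype.card ι * c := by
    rw [Matrix.linfty_opNNNorm_def]
    refine Finset.sup_le fun i _ => ?_
    calc ∑ j, ‖A i j‖₊ ≤ ∑ _j : ι, c := Finset.sum_le_sum fun j _ => by exact_mod_cast h i j
      _ = _ := by simp
  exact_mod_cast h1

/-- Powers of a unipotent element grow polynomially. -/
theorem norm_pow_le_of_unip {A : Type*} [NormedRing A] [NormedAlgebra ℝ A] {k : A}
    (hk : IsNilpotent (k - 1)) : ∃ C : ℝ, 0 ≤ C ∧ ∃ D : ℕ, ∀ j : ℕ, ‖k ^ j‖ ≤ C * (1 + j) ^ D := by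
  obtain ⟨m, hm⟩ := hk
  refine ⟨∑ i ∈ Finset.range m, ‖(k - 1) ^ i‖, by positivity, m, fun j => ?_⟩
  have h1 : k ^ j = ∑ i ∈ Finset.range (j + 1), (j.choose i : ℝ) • (k - 1) ^ i := by
    have h2 := (Commute.one_right (k - 1)).add_pow j
    rw [sub_add_cancel] at h2
    rw [h2]
    refine Finset.sum_congr rfl fun i _ => ?_
    rw [one_pow, mul_one, ← nsmul_eq_mul', Nat.cast_smul_eq_nsmul]
  have h3 : ∀ i, ‖(j.choose i : ℝ) • (k - 1) ^ i‖
      ≤ if i < m then ‖(k - 1) ^ i‖ * (1 + j) ^ m else 0 := by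
    intro i
    split_ifs with hi
    · rw [norm_smul, mul_comm]
      gcongr
      rw [Real.norm_natCast]
      calc (j.choose i : ℝ) ≤ (j : ℝ) ^ i := by exact_mod_cast Nat.choose_le_pow j i
        _ ≤ (1 + j : ℝ) ^ i := by gcongr; linarith
        _ ≤ (1 + j : ℝ) ^ m := pow_le_pow_right₀ (by linarith [Nat.cast_nonneg (α := ℝ) j]) hi.le
    · rw [pow_eq_zero_of_le (not_lt.1 hi) hm]
      simp
  rw [h1]
  refine (norm_sum_le _ _).trans ((Finset.sum_le_sum fun i _ => h3 i).trans ?_)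
  rw [← Finset.sum_filter, Finset.sum_mul]
  refine Finset.sum_le_sum_of_subset_of_nonneg ?_ fun _ _ _ => by positivity
  intro i hi
  simpa using (Finset.mem_filter.1 hi).2

/-- A locally compact group of unipotent matrices is unimodular. -/
theorem unimod_of_unip {H : Type*} [Group H] [TopologicalSpace H] [IsTopologicalGroup H]
    [LocallyCompactSpace H] [MeasurableSpace H] [BorelSpace H] (φ : H →* Matrix ι ι ℝ)
    (hφ : Topology.IsInducing φ) (hn : ∀ h, IsNilpotent (φ h - 1)) (μ : Measure H)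
    [μ.IsHaarMeasure] [μ.InnerRegular] : μ.IsMulRightInvariant := by
  obtain ⟨U0, hU0, hU1⟩ := exists_compact_mem_nhds (1 : H)
  have hU2 := hU1
  rw [hφ.nhds_eq_comap, map_one, mem_comap] at hU2
  obtain ⟨t, ht, htU⟩ := hU2
  obtain ⟨δ, hδ, hδt⟩ := Metric.mem_nhds_iff.1 ht
  set V : Set H := φ ⁻¹' Metric.ball 1 δ with hV
  have hVo : IsOpen V := Metric.isOpen_ball.preimage hφ.continuous
  have hVU : V ⊆ U0 := fun v hv => htU (hδt hv)
  obtain ⟨B1, hB1⟩ := hU0.exists_bound_of_continuousOn hφ.continuous.continuousOn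
  obtain ⟨B2, hB2⟩ := hU0.exists_bound_of_continuousOn
    (hφ.continuous.comp continuous_inv).continuousOn
  have h1U := mem_of_mem_nhds hU1
  have hB1' : 0 ≤ B1 := (norm_nonneg _).trans (hB1 1 h1U)
  have hB2' : 0 ≤ B2 := (norm_nonneg _).trans (hB2 1 h1U)
  refine unimod_of_cover μ V hVo.measurableSet
    (hVo.measure_ne_zero μ ⟨1, by simp [hV, hδ]⟩)
    ((measure_mono hVU).trans_lt hU0.measure_lt_top).ne fun k => ?_
  obtain ⟨C1, hC1, D1, h1⟩ := norm_pow_le_of_unip (hn k)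
  obtain ⟨C2, hC2, D2, h2⟩ := norm_pow_le_of_unip (hn k⁻¹)
  set c : ℝ := (Fintype.card ι : ℝ) with hc
  have hc0 : 0 ≤ c := Nat.cast_nonneg _
  set E : ℝ := (C2 * B2 + 1) * (c + 1) with hE
  have hE0 : 0 < E := by positivity
  refine ⟨(2 * (B1 * C1 * E / δ) + 4) ^ Fintype.card (ι × ι), (D1 + D2) * Fintype.card (ι × ι),
    fun j => ?_⟩
  have hj : (1 : ℝ) ≤ 1 + j := by linarith [Nat.cast_nonneg (α := ℝ) j]
  have hj1 : (1 : ℝ) ≤ (1 + j) ^ D1 := one_le_pow₀ hj
  have hj2 : (1 : ℝ) ≤ (1 + j) ^ D2 := one_le_pow₀ hj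
  have hη : 0 < δ / (E * (1 + j) ^ D2) := by positivity
  obtain ⟨s, hsS, hcard, hcov⟩ := grid_cover (fun (a : H) (p : ι × ι) => φ a p.1 p.2) hη
    (R := B1 * C1 * (1 + j) ^ D1) (by positivity) ((fun u => u * k ^ j) '' V) (by
      rintro _ ⟨u, hu, rfl⟩ p
      refine (abs_entry_le_norm _ _ _).trans ?_
      simp only [map_mul, map_pow]
      calc _ ≤ ‖φ u‖ * ‖φ k ^ j‖ := norm_mul_le _ _
        _ ≤ B1 * (C1 * (1 + j) ^ D1) := by gcongr; exacts [hB1 u (hVU hu), h1 j]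
        _ = _ := by ring)
  refine ⟨s, hcard.trans ?_, fun u hu => ?_⟩
  · rw [pow_mul, ← mul_pow]
    gcongr
    have h3 : B1 * C1 * (1 + j) ^ D1 / (δ / (E * (1 + j) ^ D2))
        = B1 * C1 * E / δ * (1 + j) ^ (D1 + D2) := by
      rw [pow_add]
      field_simp
    have h4 : (1 : ℝ) ≤ (1 + j) ^ (D1 + D2) := one_le_pow₀ hj
    rw [h3]
    nlinarith
  · obtain ⟨p, hp, hpu⟩ := hcov _ ⟨u, hu, rfl⟩
    refine ⟨p, hp, ?_⟩
    obtain ⟨v, hv, hvp⟩ := hsS hp
    have h5 : ‖φ p⁻¹‖ ≤ C2 * B2 * (1 + j) ^ D2 := by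
      rw [← hvp]
      simp only [mul_inv_rev, ← inv_pow, map_mul, map_pow]
      calc _ ≤ ‖φ k⁻¹ ^ j‖ * ‖φ v⁻¹‖ := norm_mul_le _ _
        _ ≤ (C2 * (1 + j) ^ D2) * B2 := by gcongr; exacts [h2 j, hB2 v (hVU hv)]
        _ = _ := by ring
    have h6 : ‖φ (u * k ^ j) - φ p‖ ≤ c * (δ / (E * (1 + j) ^ D2)) :=
      norm_le_card_mul _ hη.le fun i i' => (hpu (i, i')).le
    have h7 : φ (p⁻¹ * (u * k ^ j)) - 1 = φ p⁻¹ * (φ (u * k ^ j) - φ p) := by
      rw [mul_sub, ← map_mul, ← map_mul, inv_mul_cancel, map_one]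
    simp only [hV, mem_preimage, Metric.mem_ball, dist_eq_norm]
    rw [h7]
    calc _ ≤ ‖φ p⁻¹‖ * ‖φ (u * k ^ j) - φ p‖ := norm_mul_le _ _
      _ ≤ (C2 * B2 * (1 + j) ^ D2) * (c * (δ / (E * (1 + j) ^ D2))) := by gcongr
      _ = δ * (C2 * B2 * c / E) := by field_simp
      _ < δ * 1 := by
        gcongr
        rw [div_lt_one hE0, hE]
        nlinarith [mul_nonneg hC2 hB2']
      _ = δ := mul_one _

end Uni

end Pool.Agent.P.MP_d483fb_an.Z
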