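import Pool.Agent.P.MP_d483fb_an.Z.Grp.Fac
import Pool.Agent.P.MP_d483fb_an.Z.Grp.Gauge
import Pool.Agent.P.MP_d483fb_an.Z.Grp.Grid

/-!
Gauge estimates for `pr` and `al`, the packing bound, and nets with measurable cells.
-/

open scoped Matrix Matrix.Norms.Operator Topology
open Set Filter

noncomputable section

set_option linter.unusedSectionVars false

namespace Pool.Agent.P.MP_d483fb_an.Z

namespace Wt

variable {ι : Type} [Fintype ι] [DecidableEq ι] {w : Wt ι} {J : Set ℝ} {χ : ℝ}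
  {n n' : Matrix ι ι ℝ}

theorem N_pr_le (n : Matrix ι ι ℝ) : w.N (w.pr χ n) ≤ w.N n :=
  N_le_N fun i j _ => by
    rw [pr_apply]
    split_ifs <;> simp

theorem Nil.N_al_le (hn : w.Nil J n) : w.N (w.al χ n) ≤ w.C ^ 2 * w.N n := by
  have h1 : w.N (w.pr χ n)⁻¹ ≤ w.C * w.N n :=
    (hn.pr (χ := χ)).N_inv_le.trans (mul_le_mul_of_nonneg_left (N_pr_le n) w.C_pos.le)
  have h2 : w.N n ≤ w.C * w.N n := le_mul_of_one_le_left (w.N_nonneg n) w.one_le_C
  refine (hn.N_mul_le ((hn.pr (χ := χ)).inv ordConnected_singleton) h2 h1).trans_eq ?_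
  ring

theorem Nil.N_le_of_pr_al {r : ℝ} (hn : w.Nil J n) (h1 : w.N (w.al χ n) ≤ r)
    (h2 : w.N (w.pr χ n) ≤ r) : w.N n ≤ w.C * r := by
  conv_lhs => rw [← hn.al_mul_pr (χ := χ)]
  exact hn.al_univ.N_mul_le hn.pr h1 h2

theorem measurable_al : Measurable (w.al χ) :=
  Measurable.mmul measurable_id (Measurable.minv measurable_pr)

variable (w) in
/-- The dilations that fix `Nil {χ}` contract `Nil (J \ {χ})` at a uniform rate. -/
theorem exists_contr (χ : ℝ) : ∃ c : ℝ, 0 < c ∧ ∀ (J : Set ℝ) (ε : ℝ), ε = 1 ∨ ε = -1 →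
    (∀ σ ∈ J, 0 ≤ ε * (σ - χ)) → ∀ τ : ℝ, 0 ≤ τ → ∀ a, w.Nil (J \ {χ}) a →
      w.N (w.dil (τ * ε * χ) (-(τ * ε)) * a * w.dil (-(τ * ε * χ)) (- -(τ * ε)))
        ≤ Real.exp (-(c * τ)) * w.N a := by
  obtain ⟨c, hc, h⟩ := w.exists_slope_gap χ
  refine ⟨c, hc, fun J ε hε hJ τ hτ a ha => ?_⟩
  have h1 : w.Nil {σ | c ≤ ε * (σ - χ)} a := by
    refine fun i j hij => ⟨(ha i j hij).1, ?_⟩
    have h2 := h i j (ha i j hij).2.2
    have h3 := hJ _ (ha i j hij).2.1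
    simp only [mem_ofPred_eq]
    rcases hε with rfl | rfl
    · rw [abs_of_nonneg (by linarith)] at h2
      linarith
    · rw [abs_of_nonpos (by linarith)] at h2
      linarith
  refine h1.N_dil_le fun σ hσ => ?_
  simp only [mem_ofPred_eq] at hσ
  nlinarith [mul_le_mul_of_nonneg_left hσ hτ]

/-- The unipotent part of a group of matrices which is closed among the invertible ones. -/
theorem DilClosed.of_submonoid (Gen : Submonoid (Matrix ι ι ℝ)) (hi : ∀ T ∈ Gen, T⁻¹ ∈ Gen)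
    (hc : ∀ T, IsUnit T.det → T ∈ closure (Gen : Set (Matrix ι ι ℝ)) → T ∈ Gen)
    (hd : ∀ s t, w.dil s t ∈ Gen) : w.DilClosed {T | T ∈ Gen ∧ w.Nil univ T} where
  closed := by
    refine isClosed_of_closure_subset fun T hT => ?_
    have h1 : w.Nil univ T :=
      (w.isClosed_Nil univ).closure_subset (closure_mono (fun _ h => h.2) hT)
    exact ⟨hc T h1.isUnit_det (closure_mono (fun _ h => h.1) hT), h1⟩
  mul a ha b hb := ⟨Gen.mul_mem ha.1 hb.1, Nil.mul ordConnected_univ ha.2 hb.2⟩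
  inv a ha _ := ⟨hi a ha.1, ha.2.inv ordConnected_univ⟩
  conj σ τ a ha := ⟨Gen.mul_mem (Gen.mul_mem (hd _ _) ha.1) (hd _ _), ha.2.dil_conj σ τ⟩

theorem cut_upperClosure (J : Set ℝ) : Cut (upperClosure J : Set ℝ) :=
  Or.inl (upperClosure J).upper

theorem cut_lowerClosure (J : Set ℝ) : Cut (lowerClosure J : Set ℝ) :=
  Or.inr (lowerClosure J).lower

theorem union_inter_upperClosure {J1 J2 : Set ℝ} (h : ∀ s ∈ J1, ∀ t ∈ J2, s < t) :
    (J1 ∪ J2) ∩ upperClosure J2 = J2 ∧ (J1 ∪ J2) \ upperClosure J2 = J1 := by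
  have key : ∀ s ∈ J1, s ∉ (upperClosure J2 : Set ℝ) := by
    rintro s hs ⟨t, ht, hts⟩
    exact absurd (h s hs t ht) (not_lt.2 hts)
  refine ⟨Subset.antisymm ?_ fun t ht => ⟨Or.inr ht, subset_upperClosure ht⟩,
    Subset.antisymm ?_ fun s hs => ⟨Or.inl hs, key s hs⟩⟩
  · rintro s ⟨hs | hs, hs'⟩
    exacts [absurd hs' (key s hs), hs]
  · rintro s ⟨hs | hs, hs'⟩
    exacts [hs, absurd (subset_upperClosure hs) hs']

theorem union_inter_lowerClosure {J1 J2 : Set ℝ} (h : ∀ s ∈ J1, ∀ t ∈ J2, s < t) :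
    (J1 ∪ J2) ∩ lowerClosure J1 = J1 ∧ (J1 ∪ J2) \ lowerClosure J1 = J2 := by
  have key : ∀ t ∈ J2, t ∉ (lowerClosure J1 : Set ℝ) := by
    rintro t ht ⟨s, hs, hts⟩
    exact absurd (h s hs t ht) (not_lt.2 hts)
  refine ⟨Subset.antisymm ?_ fun t ht => ⟨Or.inl ht, subset_lowerClosure ht⟩,
    Subset.antisymm ?_ fun s hs => ⟨Or.inr hs, key s hs⟩⟩
  · rintro s ⟨hs | hs, hs'⟩
    exacts [hs, absurd hs' (key s hs)]
  · rintro s ⟨hs | hs, hs'⟩
    exacts [absurd (subset_lowerClosure hs) hs', hs]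

section Pack

variable (w) in
/-- The constant of the packing bound. -/
def pC : ℝ := (2 * ((Fintype.card ι + 1) * (w.C * w.C ^ w.C) ^ 2) + 4) ^ Fintype.card (ι × ι)

variable (w) in
/-- The exponent of the packing bound. -/
def pD : ℕ := 2 * ⌈w.C⌉₊ * Fintype.card (ι × ι)

variable (w) in
theorem one_le_pC : 1 ≤ w.pC :=
  one_le_pow₀ (by
    have : (0 : ℝ) ≤ 2 * ((Fintype.card ι + 1) * (w.C * w.C ^ w.C) ^ 2) := by positivity
    linarith)

variable (w) in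
theorem pC_pos : 0 < w.pC := one_pos.trans_le w.one_le_pC

theorem pack_one {α : Type*} (y : α → Matrix ι ι ℝ) (s : Finset α) {ρ : ℝ} (hρ : 0 ≤ ρ)
    (hy : ∀ a ∈ s, w.Nil univ (y a) ∧ w.N (y a) ≤ ρ)
    (hs : ∀ a ∈ s, ∀ b ∈ s, a ≠ b → 1 ≤ w.N ((y a)⁻¹ * y b)) :
    (s.card : ℝ) ≤ w.pC * (1 + ρ) ^ w.pD := by
  have hC := w.one_le_C
  have hC0 := w.C_pos
  set c : ℝ := (Fintype.card ι : ℝ) with hc
  have hc0 : 0 ≤ c := Nat.cast_nonneg _
  set E : ℝ := w.C * w.C ^ w.C with hE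
  have hE0 : 0 < E := by positivity
  have hu : (1 : ℝ) ≤ (1 + ρ) ^ ⌈w.C⌉₊ := one_le_pow₀ (by linarith)
  set B : ℝ := E * (1 + ρ) ^ ⌈w.C⌉₊ with hB
  have hB0 : 0 < B := by positivity
  have hb : ∀ m, w.Nil univ m → w.N m ≤ w.C * ρ → ‖m‖ ≤ B := by
    intro m hm hN
    refine (hm.norm_le hN).trans ?_
    have h1 : (1 + w.C * ρ) ^ w.C ≤ w.C ^ w.C * (1 + ρ) ^ ⌈w.C⌉₊ := by
      calc (1 + w.C * ρ) ^ w.C ≤ (w.C * (1 + ρ)) ^ w.C :=
            Real.rpow_le_rpow (by positivity) (by linarith) hC0.le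
        _ = w.C ^ w.C * (1 + ρ) ^ w.C := Real.mul_rpow hC0.le (by linarith)
        _ ≤ w.C ^ w.C * (1 + ρ) ^ ⌈w.C⌉₊ := by
            gcongr
            rw [← Real.rpow_natCast]
            exact Real.rpow_le_rpow_of_exponent_le (by linarith) (Nat.le_ceil _)
    rw [hB, hE, mul_assoc]
    gcongr
  have hη : 0 < 1 / ((c + 1) * B) := by positivity
  have h := grid_pack (fun a (p : ι × ι) => y a p.1 p.2) hη hB0.le s (fun a ha p =>
    (abs_entry_le _ _ _).trans (hb _ (hy a ha).1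
      ((hy a ha).2.trans (le_mul_of_one_le_left hρ hC)))) (by
    intro a ha b hb' hab
    by_contra hcon
    push Not at hcon
    have h1 : ‖y b - y a‖ ≤ c * (1 / ((c + 1) * B)) :=
      norm_le_of_entry hη.le fun i j => by
        rw [Matrix.sub_apply, abs_sub_comm]
        exact (hcon (i, j)).le
    have h2 : ‖(y a)⁻¹‖ ≤ B := hb _ ((hy a ha).1.inv ordConnected_univ)
      ((hy a ha).1.N_inv_le.trans (mul_le_mul_of_nonneg_left (hy a ha).2 hC0.le))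
    have h3 : (y a)⁻¹ * y b - 1 = (y a)⁻¹ * (y b - y a) := by
      rw [mul_sub, (hy a ha).1.inv_mul]
    have h4 : ‖(y a)⁻¹ * y b - 1‖ < 1 := by
      rw [h3]
      calc _ ≤ ‖(y a)⁻¹‖ * ‖y b - y a‖ := norm_mul_le _ _
        _ ≤ B * (c * (1 / ((c + 1) * B))) := by gcongr
        _ = c / (c + 1) := by field_simp
        _ < 1 := by rw [div_lt_one (by linarith)]; linarith
    refine absurd (hs a ha b hb' hab) (not_le.2 ((N_lt_iff one_pos).2 fun i j hij => ?_))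
    rw [Real.one_rpow]
    refine lt_of_le_of_lt ?_ h4
    refine le_trans (le_of_eq ?_) (abs_entry_le _ i j)
    rw [Matrix.sub_apply, one_apply_of_lt hij, sub_zero])
  refine h.trans ?_
  rw [pC, pD, pow_mul, ← mul_pow, ← hc, ← hE]
  gcongr
  have h5 : B / (1 / ((c + 1) * B)) = (c + 1) * E ^ 2 * (1 + ρ) ^ (2 * ⌈w.C⌉₊) := by
    rw [hB, pow_mul']
    field_simp
  have h6 : (1 : ℝ) ≤ (1 + ρ) ^ (2 * ⌈w.C⌉₊) := one_le_pow₀ (by linarith)
  rw [h5]
  nlinarith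

/-- The packing bound: a `δ`-separated family in a ball of radius `R`. -/
theorem pack {α : Type*} (x : α → Matrix ι ι ℝ) (s : Finset α) {δ R : ℝ} (hδ : 0 < δ) (hR : 0 ≤ R)
    {h : Matrix ι ι ℝ} (hh : w.Nil univ h)
    (hx : ∀ a ∈ s, w.Nil univ (x a) ∧ w.N (h⁻¹ * x a) ≤ R)
    (hs : ∀ a ∈ s, ∀ b ∈ s, a ≠ b → δ ≤ w.N ((x a)⁻¹ * x b)) :
    (s.card : ℝ) ≤ w.pC * (1 + R / δ) ^ w.pD := by
  have he : Real.exp (-Real.log δ) = δ⁻¹ := by rw [Real.exp_neg, Real.exp_log hδ]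
  refine pack_one (fun a => w.dil (-Real.log δ) 0 * (h⁻¹ * x a) * w.dil (- -Real.log δ) 0) s
    (by positivity) (fun a ha => ⟨?_, ?_⟩) fun a ha b hb hab => ?_
  · simpa using (Nil.mul ordConnected_univ (hh.inv ordConnected_univ) (hx a ha).1).dil_conj
      (-Real.log δ) 0
  · rw [N_dil, he, div_eq_inv_mul]
    gcongr
    exact (hx a ha).2
  · have e1 : w.dil (- -Real.log δ) 0 * w.dil (-Real.log δ) 0 = 1 := by
      simpa using w.dil_neg_mul (-Real.log δ) 0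
    have e2 : (w.dil (- -Real.log δ) 0)⁻¹ = w.dil (-Real.log δ) 0 := Matrix.inv_eq_right_inv e1
    have e3 : (w.dil (-Real.log δ) 0)⁻¹ = w.dil (- -Real.log δ) 0 := Matrix.inv_eq_left_inv e1
    have e4 : (w.dil (-Real.log δ) 0 * (h⁻¹ * x a) * w.dil (- -Real.log δ) 0)⁻¹
        * (w.dil (-Real.log δ) 0 * (h⁻¹ * x b) * w.dil (- -Real.log δ) 0)
        = w.dil (-Real.log δ) 0 * ((x a)⁻¹ * x b) * w.dil (- -Real.log δ) 0 := by
      simp only [Matrix.mul_inv_rev, e2, e3, hh.inv_inv, mul_assoc]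
      rw [← mul_assoc (w.dil (- -Real.log δ) 0), e1, one_mul, ← mul_assoc h, hh.mul_inv, one_mul]
    rw [e4, N_dil, he, ← div_eq_inv_mul, le_div_iff₀ hδ, one_mul]
    exact hs a ha b hb hab

/-- The packing bound for sets. -/
theorem pack_set {α : Type*} (x : α → Matrix ι ι ℝ) (s : Set α) {δ R : ℝ} (hδ : 0 < δ)
    (hR : 0 ≤ R) {h : Matrix ι ι ℝ} (hh : w.Nil univ h)
    (hx : ∀ a ∈ s, w.Nil univ (x a) ∧ w.N (h⁻¹ * x a) ≤ R)
    (hs : ∀ a ∈ s, ∀ b ∈ s, a ≠ b → δ ≤ w.N ((x a)⁻¹ * x b)) :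
    s.Finite ∧ (s.ncard : ℝ) ≤ w.pC * (1 + R / δ) ^ w.pD := by
  have key : ∀ t : Finset α, (t : Set α) ⊆ s → (t.card : ℝ) ≤ w.pC * (1 + R / δ) ^ w.pD :=
    fun t ht => pack x t hδ hR hh (fun a ha => hx a (ht ha)) fun a ha b hb => hs a (ht ha) b (ht hb)
  have hf : s.Finite := by
    by_contra hinf
    obtain ⟨t, ht, hc⟩ := Set.Infinite.exists_subset_card_eq hinf
      (⌈w.pC * (1 + R / δ) ^ w.pD⌉₊ + 1)
    have h1 := key t ht
    rw [hc] at h1
    push_cast at h1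
    linarith [Nat.le_ceil (w.pC * (1 + R / δ) ^ w.pD)]
  refine ⟨hf, ?_⟩
  rw [ncard_eq_toFinset_card s hf]
  exact key _ (by simp)

end Pack

/-- A net of mesh `δ` in a set `H` of unipotent matrices, with measurable cells. -/
structure Net (w : Wt ι) (H : Set (Matrix ι ι ℝ)) (δ : ℝ) where
  cell : Matrix ι ι ℝ → ℕ
  ctr : ℕ → Matrix ι ι ℝ
  pos : 0 < δ
  nil : ∀ h ∈ H, w.Nil univ h
  meas : Measurable cell
  ctr_mem : ∀ k, ctr k ∈ H
  near : ∀ h ∈ H, w.N ((ctr (cell h))⁻¹ * h) ≤ δ / w.C ^ 2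
  sep : ∀ h ∈ H, ∀ h' ∈ H, cell h ≠ cell h' →
    δ / w.C ^ 3 ≤ w.N ((ctr (cell h))⁻¹ * ctr (cell h'))

theorem nonempty_net {H : Set (Matrix ι ι ℝ)} (hH : ∀ h ∈ H, w.Nil univ h) (h0 : H.Nonempty)
    {δ : ℝ} (hδ : 0 < δ) : Nonempty (w.Net H δ) := by
  classical
  have hC := w.one_le_C
  have hC0 := w.C_pos
  have hη : 0 < δ / w.C ^ 3 := by positivity
  obtain ⟨P, hP⟩ := zorn_subset
    {P : Set (Matrix ι ι ℝ) | P ⊆ H ∧ P.Pairwise fun p q => δ / w.C ^ 3 ≤ w.N (p⁻¹ * q)} (by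
      intro c hc hch
      refine ⟨⋃₀ c, ⟨sUnion_subset fun s hs => (hc hs).1, ?_⟩, fun s hs => subset_sUnion_of_mem hs⟩
      rw [pairwise_sUnion hch.directedOn]
      exact fun s hs => (hc hs).2)
  have hPH := hP.prop.1
  have hPs := hP.prop.2
  have hcov : ∀ h ∈ H, ∃ p ∈ P, w.N (p⁻¹ * h) ≤ δ / w.C ^ 2 := by
    intro h hh
    by_contra hcon
    push Not at hcon
    have hle : δ / w.C ^ 3 ≤ δ / w.C ^ 2 := by gcongr; norm_num
    have h1 : insert h P ⊆ P := by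
      refine hP.le_of_ge ⟨insert_subset hh hPH, ?_⟩ (subset_insert _ _)
      rw [pairwise_insert]
      refine ⟨hPs, fun p hp _ => ⟨?_, hle.trans (hcon p hp).le⟩⟩
      have h2 := (Nil.mul ordConnected_univ ((hH h hh).inv ordConnected_univ)
        (hH p (hPH hp))).N_inv_le
      rw [Matrix.mul_inv_rev, (hH h hh).inv_inv] at h2
      have h3 := (hcon p hp).le.trans h2
      rw [div_le_iff₀ (by positivity)] at h3 ⊢
      refine h3.trans_eq ?_
      ring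
    have h4 := hcon h (h1 (mem_insert _ _))
    rw [(hH h hh).inv_mul, N_one] at h4
    exact absurd h4 (not_lt.2 (by positivity))
  have hPc : P.Countable := by
    have : P = ⋃ k : ℕ, {p ∈ P | w.N p ≤ k} := by
      ext p
      simp only [mem_iUnion, mem_ofPred_eq, exists_and_left, iff_self_and]
      exact fun _ => exists_nat_ge _
    rw [this]
    refine countable_iUnion fun k => Set.Finite.countable ?_
    refine (pack_set id _ hη (Nat.cast_nonneg k) Nil.one (fun a ha => ⟨hH a (hPH ha.1), ?_⟩)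
      fun a ha b hb hab => hPs ha.1 hb.1 hab).1
    simpa using ha.2
  have hPn : P.Nonempty := by
    obtain ⟨h, hh⟩ := h0
    obtain ⟨p, hp, -⟩ := hcov h hh
    exact ⟨p, hp⟩
  obtain ⟨e, he⟩ := hPc.exists_eq_range hPn
  have heP : ∀ k, e k ∈ P := fun k => he ▸ mem_range_self k
  let good : Matrix ι ι ℝ → ℕ → Prop := fun h k =>
    w.N ((e k)⁻¹ * h) ≤ δ / w.C ^ 2 ∨ ∀ j, ¬w.N ((e j)⁻¹ * h) ≤ δ / w.C ^ 2
  have hex : ∀ h, ∃ k, good h k := by
    intro h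
    by_cases h1 : ∃ k, w.N ((e k)⁻¹ * h) ≤ δ / w.C ^ 2
    · exact h1.imp fun _ h2 => Or.inl h2
    · exact ⟨0, Or.inr (not_exists.1 h1)⟩
  have hm : ∀ k, MeasurableSet {h : Matrix ι ι ℝ | w.N ((e k)⁻¹ * h) ≤ δ / w.C ^ 2} := fun k =>
    measurableSet_le (w.measurable_N.comp (Measurable.mmul measurable_const measurable_id))
      measurable_const
  have hnear : ∀ h ∈ H, w.N ((e (Nat.find (hex h)))⁻¹ * h) ≤ δ / w.C ^ 2 := by
    intro h hh
    refine (Nat.find_spec (hex h)).resolve_right fun h1 => ?_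
    obtain ⟨p, hp, h2⟩ := hcov h hh
    rw [he] at hp
    obtain ⟨j, rfl⟩ := hp
    exact h1 j h2
  refine ⟨⟨fun h => Nat.find (hex h), e, hδ, hH, measurable_find hex fun k => ?_,
    fun k => hPH (heP k), hnear, fun h hh h' hh' hne => hPs (heP _) (heP _) fun heq => ?_⟩⟩
  · refine (hm k).union ((MeasurableSet.iInter fun j => (hm j).compl).congr ?_)
    ext h
    simp only [mem_iInter]
    rfl
  · rcases lt_or_gt_of_ne hne with h1 | h1
    · exact Nat.find_min (hex h') h1 (Or.inl (heq ▸ hnear h' hh'))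
    · exact Nat.find_min (hex h) h1 (Or.inl (heq ▸ hnear h hh))

namespace Net

variable {H : Set (Matrix ι ι ℝ)} {δ : ℝ} (T : w.Net H δ) {h h' : Matrix ι ι ℝ}

theorem ctr_nil (k : ℕ) : w.Nil univ (T.ctr k) := T.nil _ (T.ctr_mem k)

theorem near' (hh : h ∈ H) : w.N (h⁻¹ * T.ctr (T.cell h)) ≤ δ / w.C := by
  have h1 := (Nil.mul ordConnected_univ ((T.ctr_nil (T.cell h)).inv ordConnected_univ)
    (T.nil h hh)).N_inv_le
  rw [Matrix.mul_inv_rev, (T.ctr_nil _).inv_inv] at h1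
  refine h1.trans ((mul_le_mul_of_nonneg_left (T.near h hh) w.C_pos.le).trans_eq ?_)
  have := w.C_pos
  field_simp

/-- Points of the same cell are `δ`-close. -/
theorem same (hh : h ∈ H) (hh' : h' ∈ H) (e : T.cell h = T.cell h') : w.N (h⁻¹ * h') ≤ δ := by
  have hC := w.one_le_C
  have hC0 := w.C_pos
  have hδ := T.pos
  have h1 : h⁻¹ * h' = (h⁻¹ * T.ctr (T.cell h)) * ((T.ctr (T.cell h'))⁻¹ * h') := by
    rw [e, mul_assoc, ← mul_assoc (T.ctr _), (T.ctr_nil _).mul_inv, one_mul]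
  have h2 : δ / w.C ^ 2 ≤ δ / w.C := by
    gcongr
    nlinarith
  rw [h1]
  refine ((Nil.mul ordConnected_univ ((T.nil h hh).inv ordConnected_univ) (T.ctr_nil _)).N_mul_le
    (Nil.mul ordConnected_univ ((T.ctr_nil _).inv ordConnected_univ) (T.nil h' hh'))
    (T.near' hh) ((T.near h' hh').trans h2)).trans_eq ?_
  field_simp

variable (w) in
/-- The constant in the number of cells that meet a ball. -/
def _root_.Pool.Agent.P.MP_d483fb_an.Z.Wt.nC : ℝ := w.pC * (2 * w.C ^ 4) ^ w.pD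

variable (w) in
theorem _root_.Pool.Agent.P.MP_d483fb_an.Z.Wt.one_le_nC : 1 ≤ w.nC :=
  one_le_mul_of_one_le_of_one_le w.one_le_pC
    (one_le_pow₀ (by nlinarith [one_le_pow₀ (n := 4) w.one_le_C]))

/-- The cells that meet a ball. -/
theorem count {R : ℝ} (hR : 0 ≤ R) (hh : w.Nil univ h) :
    ∃ s : Finset ℕ, (s.card : ℝ) ≤ w.nC * (1 + R / δ) ^ w.pD ∧
      ∀ k, k ∈ s ↔ ∃ h' ∈ H, w.N (h⁻¹ * h') ≤ R ∧ T.cell h' = k := by
  have hC := w.one_le_C
  have hC0 := w.C_pos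
  have hδ := T.pos
  obtain ⟨hf, hc⟩ := pack_set T.ctr {k | ∃ h' ∈ H, w.N (h⁻¹ * h') ≤ R ∧ T.cell h' = k}
    (δ := δ / w.C ^ 3) (R := w.C * (R + δ)) (by positivity) (by positivity) hh (by
      rintro _ ⟨h', hh', h1, rfl⟩
      refine ⟨T.ctr_nil _, ?_⟩
      have h2 : h⁻¹ * T.ctr (T.cell h') = (h⁻¹ * h') * (h'⁻¹ * T.ctr (T.cell h')) := by
        rw [mul_assoc, ← mul_assoc h', (T.nil h' hh').mul_inv, one_mul]
      rw [h2]
      refine (Nil.mul ordConnected_univ (hh.inv ordConnected_univ) (T.nil h' hh')).N_mul_le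
        (Nil.mul ordConnected_univ ((T.nil h' hh').inv ordConnected_univ) (T.ctr_nil _))
        (by linarith) ((T.near' hh').trans ?_)
      linarith [div_le_self hδ.le hC]) (by
      rintro _ ⟨a, ha, -, rfl⟩ _ ⟨b, hb, -, rfl⟩ hab
      exact T.sep a ha b hb hab)
  refine ⟨hf.toFinset, ?_, fun k => by simp⟩
  rw [← ncard_eq_toFinset_card _ hf]
  refine hc.trans ?_
  rw [nC, mul_assoc, ← mul_pow]
  have := w.pC_pos
  gcongr
  have h3 : w.C * (R + δ) / (δ / w.C ^ 3) = w.C ^ 4 * (1 + R / δ) := by field_simp; ring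
  have h4 : 1 ≤ w.C ^ 4 := one_le_pow₀ hC
  have h5 : 0 ≤ R / δ := by positivity
  rw [h3]
  nlinarith

/-- The cells within distance `R` of a given cell (in either order). -/
theorem count_nb {R : ℝ} (hR : 0 ≤ R) (j : ℕ) :
    ∃ s : Finset ℕ, (s.card : ℝ) ≤ w.nC * (1 + w.C ^ 2 * (R + δ) / δ) ^ w.pD ∧
      ∀ h ∈ H, ∀ h' ∈ H, T.cell h = j → w.N (h⁻¹ * h') ≤ R ∨ w.N (h'⁻¹ * h) ≤ R →
        T.cell h' ∈ s := by
  have hC := w.one_le_C
  have hC0 := w.C_pos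
  have hδ := T.pos
  obtain ⟨s, hs, hm⟩ := T.count (R := w.C ^ 2 * (R + δ)) (by positivity) (T.ctr_nil j)
  refine ⟨s, hs, fun h hh h' hh' hj hN => (hm _).2 ⟨h', hh', ?_, rfl⟩⟩
  have h1 : w.N (h⁻¹ * h') ≤ w.C * (R + δ) := by
    rcases hN with hN | hN
    · nlinarith
    · have h2 := (Nil.mul ordConnected_univ ((T.nil h' hh').inv ordConnected_univ)
        (T.nil h hh)).N_inv_le
      rw [Matrix.mul_inv_rev, (T.nil h' hh').inv_inv] at h2
      nlinarith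
  have h2 : (T.ctr j)⁻¹ * h' = ((T.ctr (T.cell h))⁻¹ * h) * (h⁻¹ * h') := by
    rw [hj, mul_assoc, ← mul_assoc h, (T.nil h hh).mul_inv, one_mul]
  rw [h2]
  refine ((Nil.mul ordConnected_univ ((T.ctr_nil _).inv ordConnected_univ) (T.nil h hh)).N_mul_le
    (Nil.mul ordConnected_univ ((T.nil h hh).inv ordConnected_univ) (T.nil h' hh'))
    ((T.near h hh).trans ?_) h1).trans_eq (by ring)
  have h3 : δ / w.C ^ 2 ≤ δ := div_le_self hδ.le (one_le_pow₀ hC)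
  nlinarith

end Net

/-- N8: measurable cells of diameter `δ`, polynomially many of which meet a ball. -/
theorem exists_cell {H : Set (Matrix ι ι ℝ)} (hH : ∀ h ∈ H, w.Nil univ h) {δ : ℝ} (hδ : 0 < δ) :
    ∃ cell : Matrix ι ι ℝ → ℕ, Measurable cell ∧
      (∀ h ∈ H, ∀ h' ∈ H, cell h = cell h' → w.N (h⁻¹ * h') ≤ δ) ∧
      ∀ (h : Matrix ι ι ℝ) (R : ℝ), w.Nil univ h → 0 ≤ R →
        ∃ s : Finset ℕ, (s.card : ℝ) ≤ w.nC * (1 + R / δ) ^ w.pD ∧
          ∀ h' ∈ H, w.N (h⁻¹ * h') ≤ R → cell h' ∈ s := by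
  obtain ⟨T⟩ := nonempty_net (w := w) (H := {n | w.Nil univ n}) (fun _ h => h) ⟨1, Nil.one⟩ hδ
  refine ⟨T.cell, T.meas, fun h hh h' hh' => T.same (hH h hh) (hH h' hh'), fun h R hh hR => ?_⟩
  obtain ⟨s, hs, hm⟩ := T.count hR hh
  exact ⟨s, hs, fun h' hh' hN => (hm _).2 ⟨h', hH h' hh', hN, rfl⟩⟩

end Wt

end Pool.Agent.P.MP_d483fb_an.Z
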