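import Pool.Agent.P.MP_d483fb_an.Z.Grp.Basic

/-!
The projection `pr χ` onto the entries of an extreme slope, and the complementary factor `al χ`.
-/

open scoped Matrix Matrix.Norms.Operator Topology
open Set Filter

noncomputable section

set_option linter.unusedSectionVars false

namespace Pool.Agent.P.MP_d483fb_an.Z

namespace Wt

variable {ι : Type} [Fintype ι] [DecidableEq ι] {w : Wt ι} {J : Set ℝ} {χ : ℝ}
  {n n' l l' : Matrix ι ι ℝ}

theorem Nil.entry (hn : w.Nil J n) {i j : ι} (h : n i j ≠ 0) :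
    i = j ∨ (w.wa j < w.wa i ∧ w.slope i j ∈ J) := by
  by_cases hij : i = j
  · exact Or.inl hij
  · refine Or.inr (hn i j ?_)
    simpa [Matrix.sub_apply, Matrix.one_apply_ne hij] using h

theorem Nil.diag_eq (hn : w.Nil J n) (i : ι) : n i i = 1 := by
  by_contra h
  have := (hn i i (by simpa [Matrix.sub_apply, sub_eq_zero] using h)).1
  exact lt_irrefl _ this

theorem nil_of_entry (h1 : ∀ i, n i i = 1)
    (h2 : ∀ i j, i ≠ j → n i j ≠ 0 → w.wa j < w.wa i ∧ w.slope i j ∈ J) : w.Nil J n := by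
  intro i j h
  by_cases hij : i = j
  · subst hij
    simp [Matrix.sub_apply, h1] at h
  · refine h2 i j hij ?_
    simpa [Matrix.sub_apply, Matrix.one_apply_ne hij] using h

theorem Extreme.exists_sign (h : Extreme J χ) :
    ∃ ε : ℝ, (ε = 1 ∨ ε = -1) ∧ ∀ σ ∈ J, 0 ≤ ε * (σ - χ) := by
  rcases h with h | h
  · exact ⟨1, Or.inl rfl, fun σ hσ => by linarith [h σ hσ]⟩
  · exact ⟨-1, Or.inr rfl, fun σ hσ => by linarith [h σ hσ]⟩

theorem Extreme.insert (h : Extreme J χ) : Extreme (insert χ J) χ := by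
  rcases h with h | h
  · exact Or.inl fun σ hσ => hσ.elim (fun e => e.ge) (h σ)
  · exact Or.inr fun σ hσ => hσ.elim (fun e => e.le) (h σ)

theorem Extreme.mono {J' : Set ℝ} (h : Extreme J χ) (hJ : J' ⊆ J) : Extreme J' χ :=
  h.imp (fun h σ hσ => h σ (hJ hσ)) fun h σ hσ => h σ (hJ hσ)

theorem extreme_singleton (χ : ℝ) : Extreme {χ} χ := Or.inl fun _ h => h.ge

theorem extreme_Ici (χ : ℝ) : Extreme (Ici χ) χ := Or.inl fun _ h => h

theorem extreme_Iic (χ : ℝ) : Extreme (Iic χ) χ := Or.inr fun _ h => h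

theorem Extreme.ordConnected_diff (h : Extreme J χ) (hJ : J.OrdConnected) :
    (J \ {χ}).OrdConnected := by
  refine ⟨fun x hx y hy z hz => ⟨hJ.out hx.1 hy.1 hz, fun e => ?_⟩⟩
  have e' : z = χ := e
  subst e'
  rcases h with h | h
  · exact hx.2 (le_antisymm hz.1 (h x hx.1))
  · exact hy.2 (le_antisymm (h y hy.1) hz.2)

theorem Extreme.slope_eq_iff (h : Extreme J χ) {i j k : ι} (hij : w.wa j < w.wa i)
    (hjk : w.wa k < w.wa j) (h1 : w.slope i j ∈ J) (h2 : w.slope j k ∈ J) :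
    w.slope i k = χ ↔ w.slope i j = χ ∧ w.slope j k = χ := by
  have e1 := slope_mul hij
  have e2 := slope_mul hjk
  have e3 := slope_mul (hjk.trans hij)
  have p1 := sub_pos.2 hij
  have p2 := sub_pos.2 hjk
  have p3 := sub_pos.2 (hjk.trans hij)
  have key : (w.slope i k - χ) * (w.wa i - w.wa k)
      = (w.slope i j - χ) * (w.wa i - w.wa j) + (w.slope j k - χ) * (w.wa j - w.wa k) := by
    linear_combination e3 - e1 - e2
  constructor
  · intro e
    rw [e, sub_self, zero_mul] at key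
    obtain ⟨ε, hε, hs⟩ := h.exists_sign
    have a1 := mul_nonneg (hs _ h1) p1.le
    have a2 := mul_nonneg (hs _ h2) p2.le
    have hε0 : ε ≠ 0 := by rcases hε with rfl | rfl <;> norm_num
    have b1 : ε * (w.slope i j - χ) * (w.wa i - w.wa j) = 0 := by
      have : ε * (w.slope i j - χ) * (w.wa i - w.wa j)
          + ε * (w.slope j k - χ) * (w.wa j - w.wa k) = 0 := by linear_combination (-ε) * key
      linarith
    have b2 : ε * (w.slope j k - χ) * (w.wa j - w.wa k) = 0 := by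
      have : ε * (w.slope i j - χ) * (w.wa i - w.wa j)
          + ε * (w.slope j k - χ) * (w.wa j - w.wa k) = 0 := by linear_combination (-ε) * key
      linarith
    simp only [mul_eq_zero, hε0, p1.ne', p2.ne', false_or, or_false, sub_eq_zero] at b1 b2
    exact ⟨b1, b2⟩
  · rintro ⟨a1, a2⟩
    rw [a1, a2, sub_self, zero_mul, zero_mul, add_zero, mul_eq_zero] at key
    exact sub_eq_zero.1 (key.resolve_right p3.ne')

theorem pr_apply (i j : ι) :
    w.pr χ n i j = if w.wa j < w.wa i ∧ w.slope i j ≠ χ then 0 else n i j := rfl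

theorem pr_diag (i : ι) : w.pr χ n i i = n i i := by simp [pr_apply]

theorem pr_pr : w.pr χ (w.pr χ n) = w.pr χ n := by
  ext i j
  simp only [pr_apply]
  split_ifs <;> rfl

theorem pr_one : w.pr χ (1 : Matrix ι ι ℝ) = 1 := by
  ext i j
  rw [pr_apply]
  split_ifs with h
  · rw [Matrix.one_apply_ne]
    rintro rfl
    exact lt_irrefl _ h.1
  · rfl

/-- `pr χ` as a linear map. -/
def prL (w : Wt ι) (χ : ℝ) : Matrix ι ι ℝ →ₗ[ℝ] Matrix ι ι ℝ where
  toFun := w.pr χ
  map_add' a b := by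
    ext i j
    simp only [pr_apply, Matrix.add_apply]
    split_ifs <;> simp
  map_smul' c a := by
    ext i j
    simp only [pr_apply, Matrix.smul_apply, RingHom.id_apply]
    split_ifs <;> simp

theorem continuous_pr : Continuous (w.pr χ) := by
  refine continuous_matrix fun i j => ?_
  simp only [pr_apply]
  split_ifs
  · exact continuous_const
  · exact continuous_id.matrix_elem i j

theorem measurable_pr : Measurable (w.pr χ) := continuous_pr.measurable

theorem Nil.pr_inter (hn : w.Nil J n) : w.Nil (J ∩ {χ}) (w.pr χ n) := by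
  refine nil_of_entry (fun i => by rw [pr_diag, hn.diag_eq]) fun i j hij h => ?_
  rw [pr_apply] at h
  split_ifs at h with hc
  · exact absurd rfl h
  · have h1 := (hn.entry h).resolve_left hij
    refine ⟨h1.1, h1.2, ?_⟩
    by_contra h2
    exact hc ⟨h1.1, h2⟩

theorem Nil.pr (hn : w.Nil J n) : w.Nil {χ} (w.pr χ n) := hn.pr_inter.mono inter_subset_right

theorem Nil.pr_same (hn : w.Nil J n) : w.Nil J (w.pr χ n) := hn.pr_inter.mono inter_subset_left

theorem Nil.pr_eq_self (hn : w.Nil {χ} n) : w.pr χ n = n := by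
  ext i j
  rw [pr_apply]
  split_ifs with h
  · by_contra h'
    rcases hn.entry (Ne.symm h') with rfl | h2
    · exact lt_irrefl _ h.1
    · exact h.2 h2.2
  · rfl

theorem Nil.pr_eq_one (hn : w.Nil (J \ {χ}) n) : w.pr χ n = 1 := by
  refine (hn.pr_inter (χ := χ)).mono ?_ |>.eq_one_of_empty
  rintro σ ⟨h1, h2⟩
  exact h1.2 h2

theorem Nil.pr_eq_one_iff (hn : w.Nil J n) : w.pr χ n = 1 ↔ w.Nil (J \ {χ}) n := by
  refine ⟨fun h => nil_of_entry hn.diag_eq fun i j hij h1 => ?_, Nil.pr_eq_one⟩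
  have h2 := (hn.entry h1).resolve_left hij
  refine ⟨h2.1, h2.2, fun h3 => ?_⟩
  have h4 : w.pr χ n i j = 0 := by rw [h, Matrix.one_apply_ne hij]
  rw [pr_apply, if_neg fun h5 => h5.2 h3] at h4
  exact h1 h4

/-- `pr χ` is a homomorphism on `Nil J` when `χ` is extreme. -/
theorem pr_mul (h : Extreme J χ) (hn : w.Nil J n) (hn' : w.Nil J n') :
    w.pr χ (n * n') = w.pr χ n * w.pr χ n' := by
  ext i k
  have key : ∀ j, w.pr χ n i j * w.pr χ n' j k
      = if w.wa k < w.wa i ∧ w.slope i k ≠ χ then 0 else n i j * n' j k := by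
    intro j
    by_cases h1 : n i j = 0
    · simp [pr_apply, h1]
    by_cases h2 : n' j k = 0
    · simp [pr_apply, h2]
    rcases hn.entry h1 with rfl | h3
    · rw [pr_diag, pr_apply]
      split_ifs <;> simp
    rcases hn'.entry h2 with rfl | h4
    · rw [pr_diag, pr_apply]
      split_ifs <;> simp
    have h5 := h.slope_eq_iff h3.1 h4.1 h3.2 h4.2
    simp only [pr_apply, h3.1, h4.1, h4.1.trans h3.1, true_and, ne_eq, h5]
    by_cases a : w.slope i j = χ <;> by_cases b : w.slope j k = χ <;> simp [a, b]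
  rw [Matrix.mul_apply, Finset.sum_congr rfl fun j _ => key j, pr_apply]
  split_ifs
  · simp
  · rw [Matrix.mul_apply]

theorem pr_inv (h : Extreme J χ) (hJ : J.OrdConnected) (hn : w.Nil J n) :
    w.pr χ n⁻¹ = (w.pr χ n)⁻¹ := by
  refine (Matrix.inv_eq_right_inv ?_).symm
  rw [← pr_mul h hn (hn.inv hJ), hn.mul_inv, pr_one]

theorem pr_lev_mul (hl : w.Lev l) : w.pr χ (l * n) = l * w.pr χ n := by
  ext i k
  rw [pr_apply, Matrix.mul_apply, Matrix.mul_apply]
  have key : ∀ j, l i j * w.pr χ n j k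
      = if w.wa k < w.wa i ∧ w.slope i k ≠ χ then 0 else l i j * n j k := by
    intro j
    by_cases h1 : l i j = 0
    · simp [h1]
    have h2 := hl i j h1
    rw [pr_apply, ← h2, ← slope_congr h2 rfl]
    split_ifs <;> simp
  rw [Finset.sum_congr rfl fun j _ => key j]
  split_ifs <;> simp

theorem pr_mul_lev (hl : w.Lev l) : w.pr χ (n * l) = w.pr χ n * l := by
  ext i k
  rw [pr_apply, Matrix.mul_apply, Matrix.mul_apply]
  have key : ∀ j, w.pr χ n i j * l j k
      = if w.wa k < w.wa i ∧ w.slope i k ≠ χ then 0 else n i j * l j k := by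
    intro j
    by_cases h1 : l j k = 0
    · simp [h1]
    have h2 := hl j k h1
    rw [pr_apply, h2, slope_congr rfl h2]
    split_ifs <;> simp
  rw [Finset.sum_congr rfl fun j _ => key j]
  split_ifs <;> simp

/-- `pr χ` commutes with multiplication by block diagonal matrices. -/
theorem pr_conj (hl : w.Lev l) (hl' : w.Lev l') : w.pr χ (l * n * l') = l * w.pr χ n * l' := by
  rw [pr_mul_lev hl', pr_lev_mul hl]

theorem Nil.al_mul_pr (hn : w.Nil J n) : w.al χ n * w.pr χ n = n := by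
  rw [al, mul_assoc, (hn.pr (χ := χ)).inv_mul, mul_one]

theorem Nil.al_univ (hn : w.Nil J n) : w.Nil Set.univ (w.al χ n) :=
  Nil.mul ordConnected_univ hn.univ (hn.pr.univ.inv ordConnected_univ)

theorem Nil.pr_al (h : Extreme J χ) (hJ : J.OrdConnected) (hn : w.Nil J n) :
    w.pr χ (w.al χ n) = 1 := by
  rw [Wt.al, pr_mul h hn (hn.pr_same.inv hJ), pr_inv h hJ hn.pr_same, pr_pr,
    (hn.pr (χ := χ)).mul_inv]

theorem Nil.al_same (hJ : J.OrdConnected) (hn : w.Nil J n) : w.Nil J (w.al χ n) :=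
  Nil.mul hJ hn (hn.pr_same.inv hJ)

theorem Nil.al (h : Extreme J χ) (hJ : J.OrdConnected) (hn : w.Nil J n) :
    w.Nil (J \ {χ}) (w.al χ n) :=
  (hn.al_same hJ).pr_eq_one_iff.1 (hn.pr_al h hJ)

theorem Nil.al_eq_self (hn : w.Nil (J \ {χ}) n) : w.al χ n = n := by
  rw [Wt.al, hn.pr_eq_one, inv_one, mul_one]

theorem Nil.al_eq_one (hn : w.Nil {χ} n) : w.al χ n = 1 := by
  rw [Wt.al, hn.pr_eq_self, hn.mul_inv]

theorem Nil.al_eq_one_iff (hn : w.Nil J n) : w.al χ n = 1 ↔ w.Nil {χ} n := by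
  refine ⟨fun h => ?_, Nil.al_eq_one⟩
  have h1 := hn.al_mul_pr (χ := χ)
  rw [h, one_mul] at h1
  rw [← h1]
  exact hn.pr

variable {a s : Matrix ι ι ℝ}

theorem pr_mul_right (h : Extreme J χ) (hn : w.Nil J n) (hs : w.Nil {χ} s) :
    w.pr χ (n * s) = w.pr χ n * s := by
  rw [pr_mul h.insert (hn.mono (subset_insert _ _))
    (hs.mono (singleton_subset_iff.2 (mem_insert _ _))), hs.pr_eq_self]

theorem pr_mul_left (h : Extreme J χ) (hs : w.Nil {χ} s) (hn : w.Nil J n) :
    w.pr χ (s * n) = s * w.pr χ n := by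
  rw [pr_mul h.insert (hs.mono (singleton_subset_iff.2 (mem_insert _ _)))
    (hn.mono (subset_insert _ _)), hs.pr_eq_self]

theorem pr_mul_eq (h : Extreme J χ) (ha : w.Nil (J \ {χ}) a) (hs : w.Nil {χ} s) :
    w.pr χ (a * s) = s := by
  rw [pr_mul_right h (ha.mono sdiff_subset) hs, ha.pr_eq_one, one_mul]

theorem al_mul_eq (h : Extreme J χ) (ha : w.Nil (J \ {χ}) a) (hs : w.Nil {χ} s) :
    w.al χ (a * s) = a := by
  rw [Wt.al, pr_mul_eq h ha hs, mul_assoc, hs.mul_inv, mul_one]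

theorem al_mul_right (h : Extreme J χ) (hn : w.Nil J n) (hs : w.Nil {χ} s) :
    w.al χ (n * s) = w.al χ n := by
  rw [Wt.al, Wt.al, pr_mul_right h hn hs, Matrix.mul_inv_rev, mul_assoc, ← mul_assoc s, hs.mul_inv,
    one_mul]

theorem pr_ker_mul (h : Extreme J χ) (ha : w.Nil (J \ {χ}) a) (hn : w.Nil J n) :
    w.pr χ (a * n) = w.pr χ n := by
  rw [pr_mul h (ha.mono sdiff_subset) hn, ha.pr_eq_one, one_mul]

theorem al_ker_mul (h : Extreme J χ) (ha : w.Nil (J \ {χ}) a) (hn : w.Nil J n) :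
    w.al χ (a * n) = a * w.al χ n := by
  rw [Wt.al, Wt.al, pr_ker_mul h ha hn, mul_assoc]

theorem al_mul (h : Extreme J χ) (hn : w.Nil J n) (hn' : w.Nil J n') :
    w.al χ (n * n') = n * w.al χ n' * (w.pr χ n)⁻¹ := by
  rw [Wt.al, Wt.al, pr_mul h hn hn', Matrix.mul_inv_rev]
  simp only [mul_assoc]

/-- Two elements have the same `pr` iff they differ by an element of the kernel. -/
theorem pr_eq_iff (h : Extreme J χ) (hJ : J.OrdConnected) (hn : w.Nil J n) (hn' : w.Nil J n') :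
    w.pr χ n = w.pr χ n' ↔ w.Nil (J \ {χ}) (n⁻¹ * n') := by
  rw [← (Nil.mul hJ (hn.inv hJ) hn').pr_eq_one_iff, pr_mul h (hn.inv hJ) hn', pr_inv h hJ hn]
  constructor
  · intro e
    rw [← e, (hn.pr (χ := χ)).inv_mul]
  · intro e
    rw [← mul_one (w.pr χ n), ← e, ← mul_assoc, (hn.pr (χ := χ)).mul_inv, one_mul]

/-- Two elements have the same `al` iff they differ on the right by an element of slope `χ`. -/
theorem al_eq_iff (h : Extreme J χ) (hn : w.Nil J n) (hn' : w.Nil J n') :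
    w.al χ n = w.al χ n' ↔ w.Nil {χ} (n⁻¹ * n') := by
  constructor
  · intro e
    have h1 : n⁻¹ * n' = (w.pr χ n)⁻¹ * w.pr χ n' := by
      conv_lhs => rw [← hn.al_mul_pr (χ := χ), ← hn'.al_mul_pr (χ := χ), Matrix.mul_inv_rev, ← e,
        mul_assoc, ← mul_assoc _ (w.al χ n), (hn.al_univ (χ := χ)).inv_mul, one_mul]
    rw [h1]
    exact Nil.mul ordConnected_singleton (hn.pr.inv ordConnected_singleton) hn'.pr
  · intro e
    rw [← al_mul_right h hn e, ← mul_assoc, hn.mul_inv, one_mul]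

theorem al_conj (hl : w.Lev l) (hu : IsUnit l.det) : w.al χ (l * n * l⁻¹) = l * w.al χ n * l⁻¹ := by
  rw [Wt.al, Wt.al, pr_conj hl hl.inv, Matrix.mul_inv_rev, Matrix.mul_inv_rev,
    Matrix.nonsing_inv_nonsing_inv _ hu]
  simp only [mul_assoc]
  rw [← mul_assoc l⁻¹ l, Matrix.nonsing_inv_mul _ hu, one_mul]

theorem al_conj' (hl : w.Lev l) (e : l * l' = 1) :
    w.al χ (l * n * l') = l * w.al χ n * l' := by
  rw [← Matrix.inv_eq_right_inv e]
  exact al_conj hl (Matrix.isUnit_det_of_right_inverse e)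

/-- Product form of a chart change: the `pr` part. -/
theorem pr_chart {x : Matrix ι ι ℝ} (h : Extreme J χ) (hn : w.Nil J n) (hl : w.Lev l)
    (hu : IsUnit l.det) (hx : w.Nil J x) :
    w.pr χ (n * (l * x * l⁻¹)) = w.pr χ n * (l * w.pr χ x * l⁻¹) := by
  rw [pr_mul h hn (hx.conj_inv hl hu), pr_conj hl hl.inv]

/-- Product form of a chart change: the `al` part. -/
theorem al_chart {x : Matrix ι ι ℝ} (h : Extreme J χ) (hn : w.Nil J n) (hl : w.Lev l)
    (hu : IsUnit l.det) (hx : w.Nil J x) :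
    w.al χ (n * (l * x * l⁻¹)) = n * (l * w.al χ x * l⁻¹) * (w.pr χ n)⁻¹ := by
  rw [al_mul h hn (hx.conj_inv hl hu), al_conj hl hu]

theorem dil_conj_apply_of_lt (σ τ : ℝ) {i j : ι} (hij : w.wa j < w.wa i) :
    (w.dil σ τ * n * w.dil (-σ) (-τ)) i j
      = Real.exp ((σ + τ * w.slope i j) * (w.wa i - w.wa j)) * n i j := by
  rw [dil_conj_apply, ← slope_mul hij]
  congr 2
  ring

theorem dil_conj_apply_of_eq (σ τ : ℝ) {i j : ι} (hij : w.wa i = w.wa j) :
    (w.dil σ τ * n * w.dil (-σ) (-τ)) i j = n i j := by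
  rw [dil_conj_apply, hij, w.hab _ _ hij]
  simp

/-- The dilations in the direction `(χ, -1)` commute with `Nil {χ}`. -/
theorem Nil.dil_conj_eq (hs : w.Nil {χ} s) (τ : ℝ) :
    w.dil (τ * χ) (-τ) * s * w.dil (-(τ * χ)) (- -τ) = s := by
  ext i j
  by_cases h0 : s i j = 0
  · rw [dil_conj_apply, h0, mul_zero]
  rcases hs.entry h0 with rfl | h1
  · exact dil_conj_apply_of_eq _ _ rfl
  · have h2 : w.slope i j = χ := h1.2
    rw [dil_conj_apply_of_lt _ _ h1.1, h2]
    simp

/-- `pr χ` is a limit of conjugations by dilations. -/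
theorem tendsto_dil_conj {ε : ℝ} (hε : ε ≠ 0) (h : ∀ σ ∈ J, 0 ≤ ε * (σ - χ)) (hn : w.Nil J n) :
    Tendsto (fun τ : ℝ => w.dil (τ * ε * χ) (-(τ * ε)) * n * w.dil (-(τ * ε * χ)) (- -(τ * ε)))
      atTop (𝓝 (w.pr χ n)) := by
  refine tendsto_pi_nhds.2 fun i => tendsto_pi_nhds.2 fun j => ?_
  by_cases h0 : n i j = 0
  · simp only [dil_conj_apply, pr_apply, h0, mul_zero, ite_self]
    exact tendsto_const_nhds
  rcases hn.entry h0 with rfl | h1
  · simp only [dil_conj_apply_of_eq _ _ rfl, pr_diag]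
    exact tendsto_const_nhds
  simp only [dil_conj_apply_of_lt _ _ h1.1, pr_apply]
  split_ifs with h2
  · have h3 : 0 < ε * (w.slope i j - χ) :=
      (h _ h1.2).lt_of_ne' (mul_ne_zero hε (sub_ne_zero.2 h2.2))
    have h4 := mul_pos h3 (sub_pos.2 h1.1)
    have h5 := (Real.tendsto_exp_neg_atTop_nhds_zero.comp
      (tendsto_id.atTop_mul_const h4)).mul_const (n i j)
    rw [zero_mul] at h5
    refine h5.congr fun τ => ?_
    simp only [Function.comp_apply, id]
    congr 2
    ring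
  · have h3 : w.slope i j = χ := by
      by_contra h4
      exact h2 ⟨h1.1, h4⟩
    simp [h3]

/-- Closed sets of matrices that are stable under products, inverses and dilations. -/
structure DilClosed (w : Wt ι) (S : Set (Matrix ι ι ℝ)) : Prop where
  closed : IsClosed S
  mul : ∀ a ∈ S, ∀ b ∈ S, a * b ∈ S
  inv : ∀ a ∈ S, w.Nil Set.univ a → a⁻¹ ∈ S
  conj : ∀ σ τ, ∀ a ∈ S, w.dil σ τ * a * w.dil (-σ) (-τ) ∈ S

theorem DilClosed.pr_mem {S : Set (Matrix ι ι ℝ)} (hS : w.DilClosed S) (h : Extreme J χ)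
    (hn : w.Nil J n) (hnS : n ∈ S) : w.pr χ n ∈ S := by
  obtain ⟨ε, hε, hs⟩ := h.exists_sign
  have hε0 : ε ≠ 0 := by rcases hε with rfl | rfl <;> norm_num
  exact hS.closed.mem_of_tendsto (tendsto_dil_conj hε0 hs hn)
    (Eventually.of_forall fun τ => hS.conj _ _ _ hnS)

theorem DilClosed.al_mem {S : Set (Matrix ι ι ℝ)} (hS : w.DilClosed S) (h : Extreme J χ)
    (hn : w.Nil J n) (hnS : n ∈ S) : w.al χ n ∈ S :=
  hS.mul _ hnS _ (hS.inv _ (hS.pr_mem h hn hnS) hn.pr.univ)

variable (w) in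
/-- The slopes different from `χ` stay away from `χ`. -/
theorem exists_slope_gap (χ : ℝ) :
    ∃ c : ℝ, 0 < c ∧ ∀ i j, w.slope i j ≠ χ → c ≤ |w.slope i j - χ| := by
  classical
  rcases (Finset.univ.filter fun p : ι × ι => w.slope p.1 p.2 ≠ χ).eq_empty_or_nonempty with h | h
  · refine ⟨1, one_pos, fun i j hij => ?_⟩
    have : (i, j) ∈ Finset.univ.filter fun p : ι × ι => w.slope p.1 p.2 ≠ χ := by simpa using hij
    rw [h] at this
    simp at this
  · obtain ⟨p, hp, hmin⟩ := Finset.exists_min_image _ (fun p : ι × ι => |w.slope p.1 p.2 - χ|) h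
    refine ⟨_, abs_pos.2 (sub_ne_zero.2 (Finset.mem_filter.1 hp).2), fun i j hij => ?_⟩
    exact hmin (i, j) (by simpa using hij)

end Wt

end Pool.Agent.P.MP_d483fb_an.Z
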